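import Pool.Agent.Lib.MP_ab8df0_nt.A.N2.Def

/-! Small primes. -/

namespace Pool.Agent.Lib.MP_ab8df0_nt.A.N2

open Pool.Agent.Lib.MP_ab8df0_nt.A

theorem a0 : CovA fl 30 1373170 m 2 ρ 0 (0 + 60) := covA _ _ _ _ _ _ _ _
  [(0, []),
  (0, [⟨[4, 5, 5], 1, 3, [3, 1, 3], [1, 1, 1, 0, -1, 0, 0, 0, 0, 5, 0, 0, 0, 0, -1]⟩, ⟨[3, 5, 4, 0, 5, 5, 5, 1, 6, 3, 5, 2], 1, 8, [4, 0, 5, 5, 0, 3, 1, 5, 6, 2, 2, 3], []⟩]),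
  (0, [⟨[3, 0, 0, 0, 0], 1, 5, [0, 3], [-3, 0, 0, 0, 0, 1]⟩, ⟨[3, 0, 0, 0, 0, 3, 0, 0, 0, 0], 1, 6, [6, 0, 0, 0, 0, 3], []⟩]),
  (0, [⟨[6, 6, 8], 1, 3, [7, 10, 5], [-1, -2, 0, 0, 1, 0, 5, -5, 0, -5, 0, -1, 1, 0, 1]⟩, ⟨[4, 9, 3, 3, 1, 3, 7, 0, 2, 10, 8, 5], 1, 6, [2, 9, 5, 2, 9, 2, 6, 9, 6, 3, 3, 9], []⟩]),
  (0, [⟨[10], 1, 1, [1], [2, 0, 1, 0, 1, -5, 0, 0, 0, -5, 1, 0, 0, 0, 1]⟩, ⟨[7, 0], 1, 2, [0, 6], [-1, 2, 0, 0, 1, 5, -5, 0, 0, -5, -1, 1, 0, 0, 1]⟩, ⟨[13, 3, 2, 7], 1, 4, [0, 6, 13], [5, 0, 0, 0, 0, -10, 0, 0, 0, 0, 2]⟩, ⟨[2, 7, 13, 1], 1, 4, [10, 9, 7], [-3, 2, -3, -1, 0, 6, -5, 5, 5, 0, -1, 1, -1, -1]⟩, ⟨[2, 10, 13, 16], 1, 4, [7, 9, 10], [-1, 0, -5, -1, -5, 0, 0, 6, 5, 6, 0, 0, -1, -1, -1]⟩]),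
  (0, [⟨[15, 18, 12], 1, 3, [12, 14, 9], [0, -1, -1, -5, -1, 0, 0, 5, 6, 5, 0, 0, -1, -1, -1]⟩, ⟨[3, 1, 1, 0, 4, 16], 1, 5, [16, 8, 17, 14, 2, 8], []⟩, ⟨[3, 3, 6, 11, 13, 10], 1, 5, [1, 16, 15, 0, 6, 17], []⟩]),
  (0, [⟨[17], 1, 1, [1], [-1, 0, 2, 0, 0, 0, 0, -5, 0, 0, 0, 0, 1]⟩, ⟨[1, 6], 1, 2, [22, 8], [-1, 2, 1, -1, 0, 0, -5, -5, 5, 0, 0, 1, 1, -1]⟩, ⟨[22, 5, 7, 22], 1, 4, [7, 7, 3, 16], [1, -1, -6, 1, 1, -5, 0, 11, 0, 0, 1, 0, -2]⟩, ⟨[22, 1, 7, 18], 1, 4, [7, 8, 17, 13], [-3, 0, -1, -6, -5, 0, 0, 0, 11, 6, 0, 0, 0, -2, -1]⟩, ⟨[15, 9, 10, 6], 1, 4, [0, 19, 7], [0, 0, -7, 0, 0, 0, 0, 6, 0, 0, 0, 0, -1]⟩]),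
  (0, [⟨[10], 1, 1, [1], [1, 2, 0, 0, 0, 0, -5, 0, 0, 0, 0, 1]⟩, ⟨[16, 27], 1, 2, [23, 23], [0, 1, 0, -1, -6, 0, 0, 0, 5, 11, 0, 0, 0, -1, -2]⟩, ⟨[16, 21], 1, 2, [9, 24], [-1, 2, 0, -6, 0, 0, -5, 0, 11, 0, 0, 1, 0, -2]⟩, ⟨[7, 0, 0, 0, 0, 27, 0, 0, 0, 0], 1, 5, [18, 20, 24, 0, 15, 7, 16, 26, 0, 21], []⟩]),
  (0, [⟨[27, 0, 0, 0, 0], 1, 5, [0, 17], []⟩, ⟨[19, 0, 0, 0, 0], 1, 5, [0, 16], []⟩, ⟨[22, 0, 0, 0, 0], 1, 5, [0, 11], []⟩]),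
  (0, [⟨[24, 36, 27], 1, 3, [29, 3, 30], [-5, 2, 0, -2, 0, 6, -5, 0, 5, 0, -1, 1, 0, -1]⟩, ⟨[3, 14, 8, 14, 23, 12, 23, 10, 29, 31, 12, 10], 1, 4, [33, 27, 18, 24, 8, 21, 14, 31, 6, 4, 1, 36], []⟩]),
  (0, [⟨[2], 1, 1, [1], [-1, 2, 0, 1, 0, 0, -5, 0, -5, 0, 0, 1, 0, 1]⟩, ⟨[20], 1, 1, [1], [0, -1, 0, 1, 0, 0, 0, 0, -5, 0, 0, 0, 0, 1]⟩, ⟨[32], 1, 1, [1], [1, 0, 1]⟩, ⟨[36], 1, 1, [1], [1, 0, 0, 0, 1, 0, 0, 0, 0, -5, 0, 0, 0, 0, 1]⟩, ⟨[33], 1, 1, [1], [-1, 2, 0, 0, 0, 0, -5, 0, 0, 0, 0, 1]⟩, ⟨[23, 0, 0, 0, 0, 15, 0, 0, 0, 0], 1, 4, [0, 0, 29, 0, 0, 0, 0, 35], []⟩]),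
  (0, [⟨[13], 1, 1, [1], [0, 1, 1, 0, 0, 0, 0, -5, 0, 0, 0, 0, 1]⟩, ⟨[4], 1, 1, [1], [-1, -1, 0, 0, 1, 0, 0, 0, 0, -5, 0, 0, 0, 0, 1]⟩, ⟨[20], 1, 1, [1], [1, -1, 0, 1, 0, 0, 0, 0, -5, 0, 0, 0, 0, 1]⟩, ⟨[3, 41, 30, 23], 1, 4, [0, 20, 42], []⟩, ⟨[2, 22, 27, 39], 1, 4, [0, 30, 14], []⟩, ⟨[34, 39, 3, 30], 1, 4, [0, 22, 38], []⟩]),
  (0, [⟨[31], 1, 1, [1], [-1, 0, 0, 1, 0, 0, 0, 0, -5, 0, 0, 0, 0, 1]⟩, ⟨[37, 4], 1, 2, [39, 4], [1, -2, 1, -6, 0, -5, 5, -5, 11, 0, 1, -1, 1, -2]⟩, ⟨[41, 41, 14, 6], 1, 4, [23, 20, 32, 19], []⟩, ⟨[29, 7, 26, 16], 1, 4, [0, 35, 11], []⟩, ⟨[41, 13, 14, 37], 1, 4, [9, 45, 25, 19], []⟩]),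
  (7, []),
  (0, [⟨[32], 1, 1, [1], [0, 0, -1, -5, 0, 0, 0, 0, 6, 0, 0, 0, 0, -1]⟩, ⟨[25, 36], 1, 2, [2, 47], [0, -1, -1, 0, -6, 0, 5, 0, 0, 11, 0, -1, 0, 0, -2]⟩, ⟨[11, 42, 7, 42], 1, 4, [8, 39, 47, 13], []⟩, ⟨[29, 39, 36, 21], 1, 4, [0, 19, 11], []⟩, ⟨[11, 10, 7, 28], 1, 4, [10, 1, 25, 51], []⟩]),
  (0, [⟨[28], 1, 1, [1], [-1, 0, 0, 0, -6, 0, 0, 0, 0, 11, 0, 0, 0, 0, -2]⟩, ⟨[42, 39], 1, 2, [17, 43], [3, -1, -1, 1, 1, -5, 0, 0, -5, -5, 1, 0, 0, 1, 1]⟩, ⟨[42, 51], 1, 2, [2, 30], [3, 1, 1, 0, 0, -5, 0, -5, 0, 0, 1, 0, 1]⟩, ⟨[26, 0, 0, 0, 0, 56, 0, 0, 0, 0], 1, 4, [22, 15, 33, 16, 0, 16, 7, 12, 25], []⟩])] (by decide +kernel)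

theorem a1 : CovA fl 30 1373170 m 2 ρ 60 (60 + 140) := covA _ _ _ _ _ _ _ _
  [(0, [⟨[2, 0, 0, 0, 0, 55, 0, 0, 0, 0, 6, 0, 0, 0, 0], 1, 4, [0, 0, 12, 0, 0, 0, 0, 1, 0, 0, 0, 0, 52], []⟩]),
  (0, [⟨[41, 64, 2], 1, 3, [21, 59, 57], [3, 0, -1, -2, 1, -10, 0, 0, 10, -5, 2, 0, 0, -2, 1]⟩, ⟨[31, 66, 36, 59, 63, 24, 23, 38, 48, 30, 66, 65], 1, 4, [20, 7, 38, 35, 42, 11, 31, 37, 39, 41, 9, 22], []⟩]),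
  (0, [⟨[38, 0, 0, 0, 0], 1, 4, [0, 0, 13], []⟩, ⟨[56, 0, 0, 0, 0, 39, 0, 0, 0, 0], 1, 4, [0, 0, 54, 0, 0, 0, 0, 3], []⟩]),
  (0, [⟨[4, 49, 29], 1, 3, [10, 38, 11], [-3, 1, 7, 0, 1, 5, -5, -11, 5, -5, -1, 1, 2, -1, 1]⟩, ⟨[36, 70, 13, 54, 10, 20, 61, 41, 46, 67, 59, 44], 1, 4, [22, 30, 42, 22, 70, 6, 11, 71, 46, 16, 72, 12], []⟩]),
  (7, []),
  (0, [⟨[19, 3, 29], 1, 3, [32, 75, 35], [0, -9, -1, -1, -1, 0, 16, 0, 5, 5, 0, -3, 0, -1, -1]⟩, ⟨[34, 6, 10, 67, 17, 51], 1, 4, [5, 9, 70, 71, 49, 1], []⟩, ⟨[34, 51, 49, 1, 36, 78], 1, 4, [42, 51, 72, 27, 64, 6], []⟩]),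
  (0, [⟨[34], 1, 1, [1], [1, 1, 0, 0, 0, -5, 0, 0, 0, 0, 1]⟩, ⟨[15, 23], 1, 2, [34, 62], [1, 0, -1, -1, -5, 0, 0, 0, 5, 6, 0, 0, 0, -1, -1]⟩, ⟨[47, 38, 6, 49], 1, 4, [0, 6, 34], []⟩, ⟨[24, 45, 7, 63], 1, 4, [6, 22, 77, 55], []⟩, ⟨[24, 51, 7, 80], 1, 4, [31, 37, 25, 46], []⟩]),
  (0, [⟨[61], 1, 1, [1], [3, 0, 1, 0, 0, -5, 0, 0, 0, 0, 1]⟩, ⟨[17, 13], 1, 2, [50, 6], [3, 1, 2, -1, 0, -5, 0, -5, 5, 0, 1, 0, 1, -1]⟩, ⟨[17, 15], 1, 2, [4, 41], [3, 1, -1, 0, 0, -5, -5, 0, 0, 0, 1, 1]⟩, ⟨[76, 0, 0, 0, 0, 88, 0, 0, 0, 0], 1, 4, [85, 70, 6, 41, 0, 44, 69, 7, 41], []⟩]),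
  (7, []),
  (0, [⟨[65, 85, 4], 1, 3, [61, 96, 83], [0, 1, -1, 5, -1, 0, -5, 0, -1, 5, 0, 1, 0, 0, -1]⟩, ⟨[91, 75, 56, 31, 87, 36, 54, 27, 44, 64, 93, 93], 1, 4, [46, 13, 24, 18, 56, 39, 34, 21, 82, 64, 86, 50], []⟩]),
  (0, [⟨[98, 0, 0, 0, 0], 1, 4, [0, 0, 88], []⟩, ⟨[68, 0, 0, 0, 0, 9, 0, 0, 0, 0], 1, 4, [0, 0, 53, 0, 0, 0, 0, 36], []⟩]),
  (0, [⟨[17, 19, 8], 1, 3, [61, 28, 98], [-6, -5, 0, 0, 5, 6, 6, 5, 0, -6, -1, -1, -1, 0, 1]⟩, ⟨[12, 29, 71, 41, 80, 17, 73, 6, 69, 94, 20, 95], 1, 4, [67, 19, 8, 91, 74, 45, 25, 40, 51, 38, 12, 23], []⟩]),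
  (0, [⟨[69], 1, 1, [1], [0, 0, -1, -5, 1, 0, 0, 5, 6, -5, 0, 0, -1, -1, 1]⟩, ⟨[64, 19], 1, 2, [72, 60], [1, 0, 1, -6, 0, 0, 5, 0, 11, 0, 0, -1, 0, -2]⟩, ⟨[77, 53, 89, 37], 1, 4, [65, 34, 38, 2], []⟩, ⟨[80, 88, 54, 38], 1, 4, [0, 65, 89], []⟩, ⟨[77, 93, 89, 51], 1, 4, [6, 52, 87, 91], []⟩]),
  (0, [⟨[27], 1, 1, [1], [-3, 0, 1, 0, 0, 5, 0, -5, 0, 0, -1, 0, 1]⟩, ⟨[63], 1, 1, [1], [0, 2, 0, -1, 0, 0, -5, 0, 5, 0, 0, 1, 0, -1]⟩, ⟨[2], 1, 1, [1], [1, 1, 0, 0, 1, 0, 0, 0, 0, -5, 0, 0, 0, 0, 1]⟩, ⟨[34, 30], 1, 2, [60, 105], [-3, -6, 0, 0, -5, 5, 11, 0, 0, 6, -1, -2, 0, 0, -1]⟩, ⟨[105, 20], 1, 2, [8, 21], [-1, 0, 1, 2, 6, 0, 0, -5, -5, -11, 0, 0, 1, 1, 2]⟩, ⟨[64, 70], 1, 2, [88, 66], [1, 0, 0, 1, -5, -5, 0, 0, -5, 6, 1, 0, 0, 1, -1]⟩,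 ⟨[64, 85], 1, 2, [66, 60], [1, 0, 0, 1, 7, -5, 0, 0, -5, -11, 1, 0, 0, 1, 2]⟩, ⟨[105, 87], 1, 2, [47, 34], [-3, 2, -1, -6, 1, 5, -5, 5, 11, -5, -1, 1, -1, -2, 1]⟩, ⟨[34, 52], 1, 2, [45, 36], [3, -6, 1, 0, 0, -5, 11, -5, 0, 0, 1, -2, 1]⟩]),
  (0, [⟨[67], 1, 1, [1], [-3, 0, 1, 0, 0, 5, 0, 0, 0, 0, -1]⟩, ⟨[103, 20], 1, 2, [44, 86], [1, 3, 0, -1, 0, 0, -10, 0, 5, 0, 0, 2, 0, -1]⟩, ⟨[13, 92, 82, 16], 1, 3, [30, 58, 75, 64], []⟩, ⟨[13, 47, 82, 77], 1, 3, [104, 111, 63, 62], []⟩, ⟨[56, 43, 31, 46], 1, 3, [78, 72, 0, 55], []⟩]),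
  (7, []),
  (11, []),
  (0, [⟨[79], 1, 1, [1], [3, 2, 0, 0, 0, -5, -5, 0, 0, 0, 1, 1]⟩, ⟨[103], 1, 1, [1], [1, 0, 1, 0, -1, 0, 0, 0, 0, 5, 0, 0, 0, 0, -1]⟩, ⟨[15], 1, 1, [1], [-1, 2, -1, 0, 0, 0, -5, 0, 0, 0, 0, 1]⟩, ⟨[57, 102, 109, 48], 1, 3, [79, 64, 82], []⟩, ⟨[75, 108, 59, 24], 1, 3, [62, 4, 42], []⟩, ⟨[48, 54, 29, 112], 1, 3, [113, 8, 18], []⟩]),
  (0, [⟨[47, 76], 1, 2, [3, 93], [-2, 0, 1, -5, 1, 5, 0, -5, 6, -5, -1, 0, 1, -1, 1]⟩, ⟨[122, 85], 1, 2, [52, 82], [-1, 0, 1, -1, -1, 1, 0, 0, 5, 5, 0, 0, 0, -1, -1]⟩, ⟨[2, 51], 1, 2, [43, 24], [-2, -1, 1, -7, 5, 5, 0, -5, 16, -6, -1, 0, 1, -3, 1]⟩, ⟨[106, 98], 1, 2, [5, 40], [-1, -1, -7, 6, 0, 0, 0, 11, -11, 0, 0, 0, -2, 2]⟩, ⟨[116, 83], 1, 2, [28, 23], [-4, -2, -5, 0, -1, 5, 5,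 6, 0, 5, -1, -1, -1, 0, -1]⟩, ⟨[90, 0, 0, 0, 0], 1, 3, [0, 0, 0, 3], []⟩]),
  (7, []),
  (0, [⟨[124], 1, 1, [1], [-3, 2, 0, 0, 1, 5, -5, 0, 0, -5, -1, 1, 0, 0, 1]⟩, ⟨[85, 119], 1, 2, [40, 111], [1, -1, 0, 1, 6, -5, 0, 0, 0, -11, 1, 0, 0, 0, 2]⟩, ⟨[36, 121, 106, 71], 1, 3, [55, 74, 61, 1], []⟩, ⟨[36, 130, 106, 84], 1, 3, [111, 71, 90, 20], []⟩, ⟨[72, 5, 105, 13], 1, 3, [125, 11, 51], []⟩]),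
  (0, [⟨[18, 102, 127], 1, 3, [52, 57, 83], []⟩, ⟨[93, 49, 7, 82, 27, 73], 1, 3, [134, 106, 30, 99, 71, 105], []⟩, ⟨[93, 119, 97, 66, 0, 78], 1, 3, [31, 5, 17, 51, 22, 47], []⟩]),
  (11, []),
  (0, [⟨[146], 1, 1, [1], [-1, 0, 0, 1, 1, 0, 0, 0, -5, -5, 0, 0, 0, 1, 1]⟩, ⟨[140, 29], 1, 2, [147, 144], [0, -1, -1, -6, 0, 5, 0, 0, 11, 0, -1, 0, 0, -2]⟩, ⟨[140, 123], 1, 2, [101, 88], [-4, 0, 1, -6, -1, 6, 0, -5, 11, 5, -1, 0, 1, -2, -1]⟩, ⟨[130, 0, 0, 0, 0, 100, 0, 0, 0, 0], 1, 3, [62, 14, 94, 26, 6, 56, 81, 19, 101, 30], []⟩]),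
  (0, [⟨[116, 117, 8], 1, 3, [10, 85, 102], []⟩, ⟨[25, 108, 1], 1, 3, [36, 32, 126], []⟩, ⟨[90, 30, 19], 1, 3, [39, 76, 129], []⟩, ⟨[49, 89, 64], 1, 3, [137, 4, 61], []⟩, ⟨[22, 109, 59], 1, 3, [80, 105, 35], []⟩]),
  (0, [⟨[130], 1, 1, [1], [3, 0, 0, 1, 0, -5, 0, 0, -5, 0, 1, 0, 0, 1]⟩, ⟨[87], 1, 1, [1], [1, 0, 0, 0, -5, 0, 0, 0, 0, 6, 0, 0, 0, 0, -1]⟩, ⟨[148], 1, 1, [1], [1, 0, 0, -6, 0, 0, 0, 0, 11, 0, 0, 0, 0, -2]⟩, ⟨[33, 101, 76, 9], 1, 3, [138, 97, 118], []⟩, ⟨[4, 58, 56, 27], 1, 3, [120, 85, 110], []⟩, ⟨[10, 112, 124, 70], 1, 3, [39, 30, 44], []⟩]),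
  (7, []),
  (0, [⟨[114, 53, 162], 1, 3, [148, 70, 94], []⟩, ⟨[20, 5, 5, 118, 11, 139, 8, 132, 30, 156, 109, 1], 1, 3, [34, 43, 47, 51, 25, 53, 135, 11, 46, 91, 117, 88], []⟩]),
  (0, [⟨[110], 1, 1, [1], [0, 1, 0, 1, 0, 0, 0, 0, -5, 0, 0, 0, 0, 1]⟩, ⟨[9, 157], 1, 2, [135, 27], [3, 1, 0, -6, 0, -5, 0, 0, 11, 0, 1, 0, 0, -2]⟩, ⟨[86, 65, 40, 110], 1, 3, [12, 116, 9, 72], []⟩, ⟨[86, 12, 40, 67], 1, 3, [116, 2, 64, 104], []⟩, ⟨[69, 157, 91, 57], 1, 3, [29, 10, 152], []⟩]),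
  (13, []),
  (0, [⟨[108], 1, 1, [1], [-1, 0, 0, 1, -1, 0, 0, 0, -5, 5, 0, 0, 0, 1, -1]⟩, ⟨[95, 120], 1, 2, [140, 113], [2, -3, 1, 1, -1, -5, 10, 0, -5, 5, 1, -2, 0, 1, -1]⟩, ⟨[34, 74, 100, 65], 1, 3, [82, 36, 0, 165], []⟩, ⟨[144, 63, 20, 152], 1, 3, [118, 42, 17, 44], []⟩, ⟨[144, 92, 20, 74], 1, 3, [4, 40, 54, 110], []⟩]),
  (0, [⟨[127], 1, 1, [1], [2, -1, 0, 1, 0, -5, 0, 0, -5, 0, 1, 0, 0, 1]⟩, ⟨[160, 141], 1, 2, [174, 28], [-3, 2, 5, 0, 5, 6, -5, -6, 0, -6, -1, 1, 1, 0, 1]⟩, ⟨[160, 90], 1, 2, [153, 104], [-1, 0, -2, 5, -6, 5, 0, 5, -6, 11, -1, 0, -1, 1, -2]⟩, ⟨[140, 0, 0, 0, 0, 162, 0, 0, 0, 0], 1, 3, [35, 41, 89, 90, 95, 160, 74, 48, 35, 98], []⟩]),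
  (0, [⟨[2, 0, 0, 0, 0, 175, 0, 0, 0, 0, 6, 0, 0, 0, 0], 1, 3, [0, 0, 0, 131, 0, 0, 0, 0, 129, 0, 0, 0, 0, 24], []⟩]),
  (11, []),
  (0, [⟨[175, 0, 0, 0, 0], 1, 3, [0, 0, 0, 88], []⟩, ⟨[24, 0, 0, 0, 0, 22, 0, 0, 0, 0], 1, 3, [0, 0, 0, 18, 0, 0, 0, 0, 124], []⟩]),
  (0, [⟨[83, 169, 147], 1, 3, [52, 6, 68], []⟩, ⟨[186, 184, 47, 62, 102, 111, 101, 78, 138, 89, 31, 46], 1, 3, [3, 68, 33, 99, 130, 56, 2, 54, 35, 131, 127, 164], []⟩]),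
  (0, [⟨[59], 1, 1, [1], [0, 1, 1, -1, 0, 0, -5, 0, 5, 0, 0, 1, 0, -1]⟩, ⟨[141, 130], 1, 2, [158, 40], [3, 0, -6, 1, -1, -5, 0, 11, 0, 5, 1, 0, -2, 0, -1]⟩, ⟨[16, 102, 13, 30], 1, 3, [41, 113, 121, 77], []⟩, ⟨[16, 104, 13, 37], 1, 3, [108, 26, 141, 130], []⟩, ⟨[109, 92, 65, 138], 1, 3, [157, 3, 137], []⟩]),
  (0, [⟨[45, 136, 183], 1, 3, [60, 166, 166], []⟩, ⟨[164, 4, 146, 198, 68, 19], 1, 3, [23, 133, 67, 168, 17, 76], []⟩, ⟨[164, 146, 151, 168, 80, 196], 1, 3, [22, 16, 139, 186, 185, 77], []⟩])] (by decide +kernel)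

theorem a2 : CovA fl 30 1373170 m 2 ρ 200 (200 + 200) := covA _ _ _ _ _ _ _ _
  [(7, []),
  (11, []),
  (0, [⟨[2, 0, 0, 0, 0, 205, 0, 0, 0, 0, 6, 0, 0, 0, 0], 1, 3, [0, 0, 0, 84, 0, 0, 0, 0, 135, 0, 0, 0, 0, 7], []⟩]),
  (7, []),
  (13, []),
  (0, [⟨[163], 1, 1, [1], [-3, 0, 1, 0, 0, 6, 0, -5, 0, 0, -1, 0, 1]⟩, ⟨[69], 1, 1, [1], [-1, -1, 0, -5, 0, 0, 0, 0, 6, 0, 0, 0, 0, -1]⟩, ⟨[147], 1, 1, [1], [3, -1, 0, 1, 0, -5, 0, 0, -5, 0, 1, 0, 0, 1]⟩, ⟨[91, 136, 191, 60], 1, 3, [46, 81, 0, 140], []⟩, ⟨[185, 112, 22, 76], 1, 3, [75, 178, 0, 219], []⟩, ⟨[160, 193, 145, 154], 1, 3, [219, 168, 0, 178], []⟩]),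
  (0, [⟨[95], 1, 1, [1], [1, 0, 0, 0, -6, 0, 0, 0, 0, 11, 0, 0, 0, 0, -2]⟩, ⟨[180, 122], 1, 2, [198, 127], [-1, 2, 0, 5, -7, 5, -5, 0, -6, 16, -1, 1, 0, 1, -3]⟩, ⟨[61, 206, 12, 33], 1, 3, [35, 174, 111, 186], []⟩, ⟨[61, 189, 12, 72], 1, 3, [156, 45, 196, 125], []⟩, ⟨[153, 4, 55, 132], 1, 3, [123, 193, 200], []⟩]),
  (0, [⟨[101], 1, 1, [1], [1, 0, 1, 0, 1, 0, 0, 0, 0, -5, 0, 0, 0, 0, 1]⟩, ⟨[223], 1, 1, [1], [3, 1, 0, -1, 0, -5, -5, 0, 5, 0, 1, 1, 0, -1]⟩, ⟨[222], 1, 1, [1], [0, 1, 1, 1, 0, 0, -5, 0, -5, 0, 0, 1, 0, 1]⟩, ⟨[180, 116], 1, 2, [78, 125], [-1, -4, -1, -1, 1, 0, 6, 0, 5, -5, 0, -1, 0, -1, 1]⟩, ⟨[104, 166], 1, 2, [180, 202], [4, -3, 6, 1, 0, -5, 5, -11, -5, 0, 1, -1, 2, 1]⟩, ⟨[193, 201], 1, 2, [176, 78], [1, -1, 0, -5,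 1, 0, 0, -5, 6, -5, 0, 0, 1, -1, 1]⟩, ⟨[180, 120], 1, 2, [20, 76], [0, -7, 7, 1, 6, 0, 11, -11, -5, -11, 0, -2, 2, 1, 2]⟩, ⟨[193, 34], 1, 2, [91, 62], [3, 2, 0, 2, -6, -5, -5, 0, -5, 11, 1, 1, 0, 1, -2]⟩, ⟨[104, 191], 1, 2, [15, 49], [1, 2, 0, -2, 5, -5, -5, 0, 5, -6, 1, 1, 0, -1, 1]⟩]),
  (0, [⟨[187], 1, 1, [1], [1, -4, 0, 0, 0, 0, 6, 0, 0, 0, 0, -1]⟩, ⟨[204, 73], 1, 2, [116, 83], [-4, -1, -7, 1, 1, 6, 0, 11, -5, -5, -1, 0, -2, 1, 1]⟩, ⟨[105, 175, 214, 46], 1, 3, [130, 139, 0, 71], []⟩, ⟨[91, 104, 117, 60], 1, 3, [212, 167, 174, 8], []⟩, ⟨[91, 109, 117, 100], 1, 3, [56, 118, 210, 199], []⟩]),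
  (0, [⟨[163], 1, 1, [1], [1, 0, 0, 7, 0, 0, 0, 0, -11, 0, 0, 0, 0, 2]⟩, ⟨[199, 55], 1, 2, [141, 160], [-2, -1, 0, 1, 1, 5, 0, 0, -5, -5, -1, 0, 0, 1, 1]⟩, ⟨[199, 21], 1, 2, [120, 91], [-1, 1, 1, 1, 1, 5, 0, 0, -5, -5, -1, 0, 0, 1, 1]⟩, ⟨[89, 0, 0, 0, 0, 194, 0, 0, 0, 0], 1, 3, [93, 129, 202, 104, 163, 18, 50, 140, 53, 84], []⟩]),
  (0, [⟨[3, 88, 54], 1, 3, [59, 103, 187], []⟩, ⟨[53, 55, 225], 1, 3, [239, 215, 16], []⟩, ⟨[20, 206, 231], 1, 3, [72, 148, 10], []⟩, ⟨[133, 185, 94], 1, 3, [45, 44, 147], []⟩, ⟨[32, 189, 119], 1, 3, [67, 213, 122], []⟩]),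
  (13, []),
  (0, [⟨[42, 0, 0, 0, 0], 1, 3, [0, 0, 0, 101], []⟩, ⟨[239, 0, 0, 0, 0, 215, 0, 0, 0, 0], 1, 3, [0, 0, 0, 177, 0, 0, 0, 0, 147], []⟩]),
  (11, []),
  (0, [⟨[84], 1, 1, [1], [-1, 2, 0, 0, 1, 0, -5, 0, 0, -5, 0, 1, 0, 0, 1]⟩, ⟨[135, 256], 1, 2, [19, 38], [3, -2, -6, 0, 5, -5, 5, 11, 0, -6, 1, -1, -2, 0, 1]⟩, ⟨[22, 221, 108, 35], 1, 3, [11, 56, 213, 251], []⟩, ⟨[189, 195, 140, 173], 1, 3, [152, 160, 65], []⟩, ⟨[22, 158, 108, 223], 1, 3, [143, 96, 177, 115], []⟩]),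
  (7, []),
  (0, [⟨[4], 1, 1, [1], [3, 0, 0, 1, 1, -5, 0, 0, -5, -5, 1, 0, 0, 1, 1]⟩, ⟨[15, 33], 1, 2, [182, 244], [-1, -4, -1, 6, 0, 5, 6, 5, -11, 0, -1, -1, -1, 2]⟩, ⟨[38, 88, 181, 43], 1, 3, [74, 6, 190, 209], []⟩, ⟨[7, 199, 247, 259], 1, 3, [240, 60, 0, 77], []⟩, ⟨[38, 144, 181, 187], 1, 3, [64, 258, 172, 57], []⟩]),
  (0, [⟨[152], 1, 1, [1], [0, 1, 1, 1, 0, 0, 0, -5, -5, 0, 0, 0, 1, 1]⟩, ⟨[30, 85], 1, 2, [24, 164], [-1, 1, 1, -5, -1, 5, -5, 0, 6, 5, -1, 1, 0, -1, -1]⟩, ⟨[30, 32], 1, 2, [222, 87], [3, 0, 0, 2, -6, -5, 0, 0, -10, 6, 1, 0, 0, 2, -1]⟩, ⟨[229, 0, 0, 0, 0, 127, 0, 0, 0, 0], 1, 3, [67, 223, 227, 142, 89, 260, 40, 145, 140, 201], []⟩]),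
  (0, [⟨[2, 0, 0, 0, 0, 265, 0, 0, 0, 0, 6, 0, 0, 0, 0], 1, 3, [0, 0, 0, 58, 0, 0, 0, 0, 93, 0, 0, 0, 0, 128], []⟩]),
  (0, [⟨[25], 1, 1, [1], [0, -1, 0, -6, 0, 0, 0, 0, 11, 0, 0, 0, 0, -2]⟩, ⟨[182], 1, 1, [1], [-1, 1, 0, 1, 0, 0, 0, 0, -5, 0, 0, 0, 0, 1]⟩, ⟨[120], 1, 1, [1], [-2, -1, 0, 1, 0, 5, 0, 0, -5, 0, -1, 0, 0, 1]⟩, ⟨[261, 203, 4, 157], 1, 3, [194, 137, 90], []⟩, ⟨[117, 60, 116, 95], 1, 3, [64, 265, 9], []⟩, ⟨[222, 164, 206, 252], 1, 3, [71, 151, 1], []⟩]),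
  (0, [⟨[273, 11], 1, 2, [98, 161], [-5, 1, 1, 5, 1, 6, 0, -5, -6, -5, -1, 0, 1, 1, 1]⟩, ⟨[155, 278], 1, 2, [109, 260], [-1, -1, 0, -5, 0, 1, 5, 0, 6, 0, 0, -1, 0, -1]⟩, ⟨[123, 103], 1, 2, [256, 186], [-1, -2, 0, 5, 0, 1, 5, 0, -6, 0, 0, -1, 0, 1]⟩, ⟨[181, 23], 1, 2, [279, 159], [0, 2, -5, -6, -6, 0, -5, 11, 11, 11, 0, 1, -2, -2, -2]⟩, ⟨[111, 147], 1, 2, [101, 77], [0, 1, 2, -6, 1, 0, -5, -5, 11, -5, 0, 1, 1, -2, 1]⟩, ⟨[232, 0, 0, 0, 0], 1, 3, [0, 0, 0, 15], []⟩]),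
  (0, [⟨[127], 1, 1, [1], [1, 0, 0, 6, 0, 0, 0, 0, -6, 0, 0, 0, 0, 1]⟩, ⟨[101], 1, 1, [1], [0, 0, -1, 1, -1, 0, 0, 0, -5, 5, 0, 0, 0, 1, -1]⟩, ⟨[88], 1, 1, [1], [0, 1, -4, 0, 1, 0, 0, 6, 0, -5, 0, 0, -1, 0, 1]⟩, ⟨[145, 275, 180, 195], 1, 3, [172, 92, 0, 206], []⟩, ⟨[279, 254, 2, 156], 1, 3, [198, 162, 0, 40], []⟩, ⟨[114, 102, 270, 182], 1, 3, [209, 187, 0, 152], []⟩]),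
  (7, []),
  (17, []),
  (0, [⟨[276], 1, 1, [1], [-2, 1, 0, 1, 0, 5, 0, 0, -5, 0, -1, 0, 0, 1]⟩, ⟨[106, 155], 1, 2, [35, 9], [-1, 2, 1, -6, 0, 5, -5, -5, 11, 0, -1, 1, 1, -2]⟩, ⟨[191, 142, 269, 73], 1, 3, [161, 180, 219, 106], []⟩, ⟨[277, 225, 4, 17], 1, 3, [249, 106, 0, 67], []⟩, ⟨[191, 173, 269, 65], 1, 3, [121, 222, 240, 166], []⟩]),
  (13, []),
  (7, []),
  (0, [⟨[246], 1, 1, [1], [-2, 0, 1, -6, 0, 5, 0, 0, 11, 0, -1, 0, 0, -2]⟩, ⟨[238], 1, 1, [1], [-4, 1, 0, 0, 0, 6, -5, 0, 0, 0, -1, 1]⟩, ⟨[257], 1, 1, [1], [0, 2, 0, 1, -1, 0, -5, 0, -5, 5, 0, 1, 0, 1, -1]⟩, ⟨[166, 108, 270, 61], 1, 3, [151, 112, 253], []⟩, ⟨[213, 51, 263, 50], 1, 3, [120, 183, 226], []⟩, ⟨[224, 19, 151, 69], 1, 3, [270, 265, 108], []⟩]),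
  (0, [⟨[118], 1, 1, [1], [-1, 0, 0, 1, 0, 0, -5, 0, -5, 0, 0, 1, 0, 1]⟩, ⟨[297], 1, 1, [1], [-1, 0, 0, -5, 1, 0, 0, 0, 6, -5, 0, 0, 0, -1, 1]⟩, ⟨[86], 1, 1, [1], [1, 1, 0, 1, 1, 0, -5, 0, -5, -5, 0, 1, 0, 1, 1]⟩, ⟨[205], 1, 1, [1], [0, -1, 1, 0, 0, 0, 0, -5, 0, 0, 0, 0, 1]⟩, ⟨[227], 1, 1, [1], [1, -1, 0, -6, 0, 0, 0, 0, 11, 0, 0, 0, 0, -2]⟩, ⟨[157, 0, 0, 0, 0, 111, 0, 0, 0, 0], 1, 3, [0, 0, 0, 123, 0, 0, 0, 0, 165], []⟩]),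
  (0, [⟨[173, 80, 160], 1, 3, [231, 27, 263], []⟩, ⟨[237, 46, 163, 30, 297, 53, 213, 245, 117, 124, 299, 153], 1, 3, [152, 4, 180, 247, 66, 134, 67, 108, 117, 71, 223, 37], []⟩]),
  (0, [⟨[208], 1, 1, [1], [1, -1, 0, 0, 1, 0, 0, 0, 0, -5, 0, 0, 0, 0, 1]⟩, ⟨[268, 289], 1, 2, [166, 193], [-1, -2, -1, -4, 0, 0, 5, 5, 1, 0, 0, -1, -1]⟩, ⟨[37, 84, 165, 109], 1, 3, [161, 277, 24], []⟩, ⟨[135, 280, 314, 294], 1, 3, [80, 305, 251, 176], []⟩, ⟨[135, 141, 314, 51], 1, 3, [18, 228, 87, 56], []⟩]),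
  (11, []),
  (17, []),
  (7, []),
  (0, [⟨[2, 0, 0, 0, 0, 325, 0, 0, 0, 0, 6, 0, 0, 0, 0], 1, 3, [0, 0, 0, 135, 0, 0, 0, 0, 106, 0, 0, 0, 0, 79], []⟩]),
  (0, [⟨[316, 236, 294], 1, 3, [173, 154, 203], []⟩, ⟨[305, 186, 198, 225, 333, 287, 254, 245, 5, 72, 274, 43], 1, 3, [286, 98, 336, 327, 88, 292, 144, 12, 244, 205, 305, 32], []⟩]),
  (11, []),
  (7, []),
  (0, [⟨[76], 1, 1, [1], [3, -1, 1, 0, 0, -5, 0, 0, 0, 0, 1]⟩, ⟨[178, 60], 1, 2, [263, 211], [-1, -3, 2, 0, -11, 0, 5, -5, 0, 17, 0, -1, 1, 0, -3]⟩, ⟨[139, 326, 123, 271], 1, 3, [101, 76, 2], []⟩, ⟨[240, 139, 30, 48], 1, 3, [48, 218, 327, 75], []⟩, ⟨[240, 131, 30, 239], 1, 3, [213, 216, 76, 69], []⟩]),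
  (0, [⟨[209, 111, 286], 1, 3, [97, 20, 323], []⟩, ⟨[293, 28, 269, 95, 38, 347], 1, 3, [293, 297, 63, 119, 238, 222], []⟩, ⟨[293, 137, 312, 32, 289, 65], 1, 3, [338, 69, 114, 115, 333, 103], []⟩]),
  (0, [⟨[288], 1, 1, [1], [0, 1, -1, -6, 0, 0, 0, 5, 11, 0, 0, 0, -1, -2]⟩, ⟨[41, 146], 1, 2, [257, 40], [1, 1, -2, -5, 0, 0, 0, 5, 6, 0, 0, 0, -1, -1]⟩, ⟨[84, 268, 94, 93], 1, 3, [269, 194, 268, 6], []⟩, ⟨[232, 344, 11, 65], 1, 3, [77, 102, 0, 261], []⟩, ⟨[84, 70, 94, 114], 1, 3, [183, 189, 298, 308], []⟩]),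
  (0, [⟨[76], 1, 1, [1], [-1, 0, -5, 0, 0, 0, 0, 6, 0, 0, 0, 0, -1]⟩, ⟨[327, 82], 1, 2, [156, 75], [3, -6, 6, 0, -6, -5, 11, -11, 0, 11, 1, -2, 2, 0, -2]⟩, ⟨[327, 201], 1, 2, [340, 127], [4, -5, -6, 7, -1, -6, 6, 11, -11, 5, 1, -1, -2, 2, -1]⟩, ⟨[100, 0, 0, 0, 0, 85, 0, 0, 0, 0], 1, 3, [243, 29, 332, 78, 346, 259, 231, 6, 263, 144], []⟩]),
  (19, []),
  (0, [⟨[67, 362, 252], 1, 3, [25, 20, 130], []⟩, ⟨[115, 151, 247, 115, 139, 343, 118, 260, 364, 278, 359, 115], 1, 3, [248, 153, 35, 179, 155, 307, 148, 242, 198, 328, 45, 110], []⟩]),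
  (7, []),
  (0, [⟨[230, 178, 97], 1, 3, [280, 166, 109], []⟩, ⟨[120, 345, 250, 367, 191, 18, 212, 100, 96, 358, 111, 276], 1, 3, [176, 0, 71, 204, 247, 167, 34, 55, 193, 259, 129, 119], []⟩]),
  (13, []),
  (0, [⟨[273, 241, 237], 1, 3, [260, 11, 177], []⟩, ⟨[134, 254, 20, 79, 30, 334], 1, 3, [105, 106, 66, 101, 240, 113], []⟩, ⟨[134, 351, 63, 294, 333, 187], 1, 3, [230, 19, 242, 347, 355, 100], []⟩]),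
  (0, [⟨[116], 1, 1, [1], [1, -2, 1, 1, 0, 0, 5, -5, -5, 0, 0, -1, 1, 1]⟩, ⟨[190, 203], 1, 2, [82, 69], [3, -1, 0, 0, 0, -10, 0, 0, 5, 0, 2, 0, 0, -1]⟩, ⟨[80, 212, 332, 267], 1, 3, [380, 241, 0, 262], []⟩, ⟨[285, 381, 351, 309], 1, 3, [144, 262, 123, 308], []⟩, ⟨[285, 272, 351, 254], 1, 3, [258, 159, 167, 13], []⟩]),
  (0, [⟨[347], 1, 1, [1], [-1, 0, 0, -1, -5, 0, 0, 0, 5, 6, 0, 0, 0, -1, -1]⟩, ⟨[181, 271], 1, 2, [117, 180], [3, 2, -2, 0, -1, -5, -5, 5, 5, 5, 1, 1, -1, -1, -1]⟩, ⟨[181, 160], 1, 2, [96, 310], [-1, -1, -5, 1, -1, 0, 5, 11, -5, 5, 0, -1, -2, 1, -1]⟩, ⟨[265, 0, 0, 0, 0, 75, 0, 0, 0, 0], 1, 3, [117, 116, 221, 45, 285, 14, 186, 213, 362, 221], []⟩]),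
  (17, []),
  (0, [⟨[318], 1, 1, [1], [3, 0, -1, 1, 0, -5, 0, 0, -5, 0, 1, 0, 0, 1]⟩, ⟨[263], 1, 1, [1], [-4, 0, -1, 0, 0, 6, 0, 5, 0, 0, -1, 0, -1]⟩, ⟨[26], 1, 1, [1], [3, 1, 2, 0, 0, -5, 0, -5, 0, 0, 1, 0, 1]⟩, ⟨[56, 284, 306, 134], 1, 3, [219, 371, 190], []⟩, ⟨[383, 362, 111, 79], 1, 3, [196, 245, 34], []⟩, ⟨[368, 289, 118, 371], 1, 3, [144, 186, 167], []⟩])] (by decide +kernel)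

theorem a3 : CovA fl 30 1373170 m 2 ρ 400 (400 + 300) := covA _ _ _ _ _ _ _ _
  [(0, [⟨[288, 0, 0, 0, 0], 1, 3, [0, 0, 0, 320], []⟩, ⟨[181, 0, 0, 0, 0, 119, 0, 0, 0, 0], 1, 3, [0, 0, 0, 372, 0, 0, 0, 0, 88], []⟩]),
  (13, []),
  (11, []),
  (0, [⟨[368, 18, 287], 1, 3, [25, 266, 305], []⟩, ⟨[364, 314, 35, 269, 363, 213], 1, 3, [119, 251, 81, 314, 71, 266], []⟩, ⟨[364, 175, 229, 30, 117, 318], 1, 3, [277, 253, 179, 133, 209, 185], []⟩]),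
  (7, []),
  (0, [⟨[320], 1, 1, [1], [-1, -4, 0, 0, 0, 0, 6, 0, 0, 0, 0, -1]⟩, ⟨[255, 115], 1, 2, [304, 2], [-4, 0, -5, 0, -5, 6, 0, 6, 5, 6, -1, 0, -1, -1, -1]⟩, ⟨[255, 403], 1, 2, [352, 44], [-1, -1, -5, 1, 1, 0, 5, 11, -5, -5, 0, -1, -2, 1, 1]⟩, ⟨[235, 0, 0, 0, 0, 384, 0, 0, 0, 0], 1, 3, [253, 164, 178, 127, 322, 103, 91, 383, 6, 125], []⟩]),
  (0, [⟨[2, 0, 0, 0, 0, 415, 0, 0, 0, 0, 6, 0, 0, 0, 0], 1, 3, [0, 0, 0, 36, 0, 0, 0, 0, 263, 0, 0, 0, 0, 171], []⟩]),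
  (7, []),
  (0, [⟨[86, 0, 0, 0, 0], 1, 3, [0, 0, 0, 123], []⟩, ⟨[10, 0, 0, 0, 0, 351, 0, 0, 0, 0], 1, 3, [0, 0, 0, 52, 0, 0, 0, 0, 204], []⟩]),
  (0, [⟨[378], 1, 1, [1], [-3, 0, 0, -1, 0, 6, 0, 0, 5, 0, -1, 0, 0, -1]⟩, ⟨[47], 1, 1, [1], [-1, -2, 0, -6, 0, 0, 5, 0, 11, 0, 0, -1, 0, -2]⟩, ⟨[121], 1, 1, [1], [-1, 2, 0, -1, 1, 0, -5, 0, 5, -5, 0, 1, 0, -1, 1]⟩, ⟨[397, 103, 6, 55], 1, 3, [101, 132, 0, 367], []⟩, ⟨[367, 275, 81, 312], 1, 3, [232, 188, 0, 410], []⟩, ⟨[229, 97, 389, 386], 1, 3, [124, 408, 0, 264], []⟩]),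
  (19, []),
  (0, [⟨[276], 1, 1, [1], [3, 0, 1, 0, 0, -5, 0, -5, 0, 0, 1, 0, 1]⟩, ⟨[101], 1, 1, [1], [1, 1, 1, 0, 0, 0, -5, 0, 0, 0, 0, 1]⟩, ⟨[108], 1, 1, [1], [-2, 2, 0, -5, 0, 5, -5, 0, 6, 0, -1, 1, 0, -1]⟩, ⟨[189, 428], 1, 2, [11, 2], [-5, 0, 2, -1, 1, 11, 0, -5, 0, -5, -2, 0, 1, 0, 1]⟩, ⟨[189, 342], 1, 2, [302, 142], [-6, -1, -1, 5, -5, 11, 5, 0, -6, 6, -2, -1, 0, 1, -1]⟩, ⟨[335, 393], 1, 2, [236, 392], [-1, 0, -1, 0, -12, 0, 0, 5, 0, 22, 0, 0, -1, 0, -4]⟩, ⟨[210, 167], 1, 2, [157, 353], [-6, 0, 1, -6, 1, 11, 0, 0, 11, -5, -2, 0, 0, -2, 1]⟩, ⟨[335, 384], 1, 2, [90, 123], [2, -7, 4, 1, 6, -5, 11, -6, -5, -11, 1, -2, 1, 1, 2]⟩, ⟨[210, 435], 1, 2, [80, 40], [-4, 5, -5, 1, -1, 6, -6, 11, -5, 5, -1, 1, -2, 1, -1]⟩]),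
  (0, [⟨[431], 1, 1, [1], [3, 1, 0, 0, 0, -5, 0, 0, 0, 0, 1]⟩, ⟨[176, 121], 1, 2, [74, 72], [3, -5, 5, -1, 1, -5, 6, -11, 0, -5, 1, -1, 2, 0, 1]⟩, ⟨[85, 399, 299, 12], 1, 3, [8, 147, 0, 363], []⟩, ⟨[34, 207, 336, 371], 1, 3, [298, 127, 441, 262], []⟩, ⟨[34, 268, 336, 394], 1, 3, [101, 352, 101, 321], []⟩]),
  (0, [⟨[107], 1, 1, [1], [-1, 0, 0, 1, 1, 0, 0, 0, 0, -5, 0, 0, 0, 0, 1]⟩, ⟨[225, 144], 1, 2, [130, 310], [-3, 2, 0, -5, -6, 5, -5, 0, 11, 11, -1, 1, 0, -2, -2]⟩, ⟨[225, 198], 1, 2, [105, 135], [-1, 5, 1, 5, -1, 1, -6, -5, -6, 5, 0, 1, 1, 1, -1]⟩, ⟨[365, 0, 0, 0, 0, 316, 0, 0, 0, 0], 1, 3, [139, 3, 374, 328, 373, 288, 291, 94, 395, 133], []⟩]),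
  (11, []),
  (0, [⟨[423], 1, 1, [1], [1, 0, 0, -6, -1, 0, 0, 0, 11, 5, 0, 0, 0, -2, -1]⟩, ⟨[273], 1, 1, [1], [0, 0, 1, -6, 1, 0, 0, 0, 11, -5, 0, 0, 0, -2, 1]⟩, ⟨[244], 1, 1, [1], [2, 0, 1, 0, -1, -5, 0, -5, 0, 5, 1, 0, 1, 0, -1]⟩, ⟨[119, 332, 331, 213], 1, 3, [280, 68, 53], []⟩, ⟨[389, 2, 215, 34], 1, 3, [176, 320, 250], []⟩, ⟨[384, 137, 419, 184], 1, 3, [279, 455, 308], []⟩]),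
  (0, [⟨[340, 0, 0, 0, 0], 1, 3, [0, 0, 0, 62], []⟩, ⟨[301, 0, 0, 0, 0, 127, 0, 0, 0, 0], 1, 3, [0, 0, 0, 322, 0, 0, 0, 0, 178], []⟩]),
  (0, [⟨[50, 106, 246], 1, 3, [428, 116, 158], []⟩, ⟨[37, 329, 65, 87, 345, 18, 183, 336, 73, 20, 31, 217], 1, 3, [7, 265, 87, 76, 78, 71, 147, 70, 309, 89, 365, 295], []⟩]),
  (0, [⟨[262], 1, 1, [1], [-1, -1, 0, 1, 0, 0, 0, 0, -5, 0, 0, 0, 0, 1]⟩, ⟨[459, 255], 1, 2, [441, 35], [3, -1, -1, -6, -1, -5, 5, 5, 11, 5, 1, -1, -1, -2, -1]⟩, ⟨[403, 461, 379, 96], 1, 3, [47, 414, 26, 345], []⟩, ⟨[403, 301, 379, 116], 1, 3, [304, 195, 20, 311], []⟩, ⟨[442, 376, 5, 205], 1, 3, [355, 39, 396], []⟩]),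
  (7, []),
  (11, []),
  (0, [⟨[84], 1, 1, [1], [1, 0, 1, 0, -6, 0, 0, 0, 0, 11, 0, 0, 0, 0, -2]⟩, ⟨[129, 471], 1, 2, [109, 147], [-3, 3, -6, 1, -6, 6, -5, 11, -5, 11, -1, 1, -2, 1, -2]⟩, ⟨[129, 403], 1, 2, [102, 280], [1, 1, 6, 6, -6, 0, 0, -11, -6, 11, 0, 0, 2, 1, -2]⟩, ⟨[212, 0, 0, 0, 0, 363, 0, 0, 0, 0], 1, 3, [82, 283, 201, 114, 62, 42, 80, 352, 254, 138], []⟩]),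
  (13, []),
  (0, [⟨[162, 78, 235], 1, 3, [63, 218, 322], []⟩, ⟨[6, 430, 145, 58, 62, 401, 36, 204, 324, 378, 215, 252], 1, 3, [176, 117, 49, 184, 256, 482, 43, 206, 214, 362, 9, 466], []⟩]),
  (0, [⟨[291], 1, 1, [1], [0, 1, -5, 0, 1, 0, 0, 6, 0, -5, 0, 0, -1, 0, 1]⟩, ⟨[422], 1, 1, [1], [0, 2, -5, 0, 0, 0, -5, 6, 0, 0, 0, 1, -1]⟩, ⟨[396], 1, 1, [1], [-1, 1, -1, 1, 0, 0, 0, 0, -5, 0, 0, 0, 0, 1]⟩, ⟨[225], 1, 1, [1], [1, 0, -4, 1, 0, 0, 0, 6, -5, 0, 0, 0, -1, 1]⟩, ⟨[139], 1, 1, [1], [-1, -1, 1, -6, 0, 0, 0, -5, 11, 0, 0, 0, 1, -2]⟩, ⟨[154, 0, 0, 0, 0, 446, 0, 0, 0, 0], 1, 3, [0, 0, 0, 241, 0, 0, 0, 0, 133], []⟩]),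
  (17, []),
  (7, []),
  (0, [⟨[192], 1, 1, [1], [0, 1, 0, -6, 0, 0, 0, 0, 11, 0, 0, 0, 0, -2]⟩, ⟨[58], 1, 1, [1], [3, 1, 0, 0, -1, -5, 0, 0, 0, 5, 1, 0, 0, 0, -1]⟩, ⟨[182], 1, 1, [1], [-3, -4, 0, 0, 0, 5, 6, 0, 0, 0, -1, -1]⟩, ⟨[129, 18], 1, 2, [82, 379], [2, -5, -1, 5, 0, 0, 6, 5, -6, 0, 0, -1, -1, 1]⟩, ⟨[62, 94], 1, 2, [451, 362], [1, -3, -2, 1, -6, 0, 1, 5, -5, 11, 0, 0, -1, 1, -2]⟩, ⟨[129, 423], 1, 2, [374, 325], [2, 1, 0, -4, 1, -5, -5, 0, 1, -5, 1, 1, 0, 0, 1]⟩, ⟨[62, 213], 1, 2, [61, 475], [1, -2, 0, -1, -7, 0, 0, 0, 5, 16, 0, 0, 0, -1, -3]⟩, ⟨[309, 467], 1, 2, [15, 344], [-3, -1, 2, 6, 0, 1, 0, -5, -6, 0, 0, 0, 1, 1]⟩, ⟨[309, 349], 1, 2, [70, 134], [-1, 2, -5, -6, 0, 0, -5, 6, 11, 5, 0, 1, -1, -2, -1]⟩]),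
  (0, [⟨[277], 1, 1, [1], [1, 0, 0, 1, 1, 0, 0, 0, 0, -5, 0, 0, 0, 0, 1]⟩, ⟨[297, 335], 1, 2, [236, 410], [0, 4, -5, 1, 7, 0, -10, 6, -5, -16, 0, 2, -1, 1, 3]⟩, ⟨[319, 294, 59, 484], 1, 3, [331, 7, 427, 453], []⟩, ⟨[418, 332, 230, 226], 1, 3, [248, 493, 0, 22], []⟩, ⟨[319, 110, 59, 187], 1, 3, [72, 19, 73, 125], []⟩]),
  (0, [⟨[137], 1, 1, [1], [2, 1, 1, 0, -1, -5, 0, -5, 0, 5, 1, 0, 1, 0, -1]⟩, ⟨[64, 289], 1, 2, [50, 93], [-5, -8, 2, 0, -1, 6, 11, -5, 0, 5, -1, -2, 1, 0, -1]⟩, ⟨[64, 83], 1, 2, [433, 241], [-3, 1, 1, 0, -2, 6, 0, 0, 0, 10, -1, 0, 0, 0, -2]⟩, ⟨[87, 0, 0, 0, 0, 281, 0, 0, 0, 0], 1, 3, [66, 154, 45, 80, 497, 228, 402, 424, 75, 256], []⟩]),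
  (7, []),
  (11, []),
  (0, [⟨[12], 1, 1, [1], [-1, -2, 0, -6, 0, 5, 5, 0, 11, 0, -1, -1, 0, -2]⟩, ⟨[461], 1, 1, [1], [1, 2, 1, 0, 0, 0, -5, 0, 0, 0, 0, 1]⟩, ⟨[63], 1, 1, [1], [-1, 0, 1, 1, 0, 5, 0, 0, -5, 0, -1, 0, 0, 1]⟩, ⟨[206], 1, 1, [1], [2, 1, 0, 0, 0, -5, -5, 0, 0, 0, 1, 1]⟩, ⟨[300], 1, 1, [1], [1, -1, 0, 0, -6, 0, 0, 0, 0, 11, 0, 0, 0, 0, -2]⟩, ⟨[86, 0, 0, 0, 0, 212, 0, 0, 0, 0], 1, 3, [0, 0, 0, 45, 0, 0, 0, 0, 373], []⟩]),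
  (0, [⟨[353, 408, 29], 1, 3, [115, 320, 479], []⟩, ⟨[80, 192, 376, 344, 341, 278, 468, 138, 514, 233, 320, 494], 1, 3, [301, 522, 348, 216, 462, 36, 79, 94, 458, 379, 1, 63], []⟩]),
  (17, []),
  (23, []),
  (13, []),
  (7, []),
  (0, [⟨[2, 0, 0, 0, 0, 535, 0, 0, 0, 0, 6, 0, 0, 0, 0], 1, 3, [0, 0, 0, 494, 0, 0, 0, 0, 248, 0, 0, 0, 0, 262], []⟩]),
  (0, [⟨[221, 253, 190], 1, 3, [94, 306, 112], []⟩, ⟨[198, 204, 465, 256, 261, 55, 142, 123, 121, 291, 296, 357], 1, 3, [89, 57, 297, 502, 318, 142, 350, 471, 264, 509, 393, 474], []⟩]),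
  (19, []),
  (7, []),
  (0, [⟨[100], 1, 1, [1], [1, -1, 1, 1, 0, 0, 0, 0, -5, 0, 0, 0, 0, 1]⟩, ⟨[504, 540], 1, 2, [347, 434], [-3, 0, -2, -7, 1, 6, 0, 5, 16, -5, -1, 0, -1, -3, 1]⟩, ⟨[533, 407, 427, 209], 1, 3, [227, 404, 452, 280], []⟩, ⟨[533, 494, 427, 365], 1, 3, [311, 419, 394, 375], []⟩, ⟨[438, 372, 26, 457], 1, 3, [60, 56, 469], []⟩]),
  (13, []),
  (0, [⟨[372], 1, 1, [1], [2, 1, 1, -1, 0, -5, 0, -5, 5, 0, 1, 0, 1, -1]⟩, ⟨[97, 126], 1, 2, [561, 286], [-7, -2, 0, 6, 1, 11, 0, 0, -11, -5, -2, 0, 0, 2, 1]⟩, ⟨[162, 91, 160, 525], 1, 3, [237, 512, 404, 422], []⟩, ⟨[516, 183, 114, 191], 1, 3, [402, 555, 0, 178], []⟩, ⟨[162, 308, 160, 475], 1, 3, [369, 469, 20, 493], []⟩]),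
  (0, [⟨[486], 1, 1, [1], [1, 1, 1, 0, 1, 0, 0, 0, 0, -5, 0, 0, 0, 0, 1]⟩, ⟨[508, 90], 1, 2, [413, 269], [-1, -4, 7, 1, -5, 0, 6, -11, -5, 6, 0, -1, 2, 1, -1]⟩, ⟨[417, 506], 1, 2, [334, 408], [7, 0, -5, 1, 0, -11, 0, 6, -5, 5, 2, 0, -1, 1, -1]⟩, ⟨[417, 421], 1, 2, [552, 192], [-2, 1, -1, 0, -6, 5, 0, 5, 5, 11, -1, 0, -1, -1, -2]⟩, ⟨[417, 407], 1, 2, [472, 55], [-3, 1, 2, 6, 0, 1, 0, -10, -11, 0, 0, 0, 2, 2]⟩, ⟨[417, 340], 1, 2, [491, 295], [-4, 1, -6, 5, 0, 6, -5, 6, -6, 0, -1, 1, -1, 1]⟩, ⟨[508, 562], 1, 2, [108, 356], [2, -1, 5, 7, 0, 0, 0, -6, -11, 0, 0, 0, 1, 2]⟩, ⟨[417, 33], 1, 2, [213, 194], [-5, 2, 1, -1, 0, 11, 0, -5, 0, 0, -2, 0, 1]⟩]),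
  (0, [⟨[47, 133, 261], 1, 3, [338, 88], []⟩, ⟨[338, 81, 258], 1, 3, [414, 367], []⟩, ⟨[414, 513, 511], 1, 3, [426, 421], []⟩, ⟨[488, 21, 191], 1, 3, [47, 74], []⟩, ⟨[426, 394, 492], 1, 3, [488, 192], []⟩]),
  (0, [⟨[108, 96, 256], 1, 3, [205, 188, 294], []⟩, ⟨[203, 76, 71, 170, 472, 220, 493, 391, 281, 575, 146, 321], 1, 3, [219, 460, 278, 368, 140, 344, 472, 148, 348, 528, 198, 162], []⟩]),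
  (7, []),
  (11, []),
  (0, [⟨[182], 1, 1, [1], [-1, 1, 1, 0, 0, 0, 0, -5, 0, 0, 0, 0, 1]⟩, ⟨[197, 437], 1, 2, [386, 373], [-5, 0, 6, -1, -5, 6, 0, -11, 5, 6, -1, 0, 2, -1, -1]⟩, ⟨[520, 435, 389, 36], 1, 3, [126, 572, 402, 348], []⟩, ⟨[479, 509, 335, 405], 1, 3, [273, 441, 50], []⟩, ⟨[520, 539, 389, 114], 1, 3, [304, 294, 533, 550], []⟩]),
  (19, []),
  (0, [⟨[378], 1, 1, [1], [0, 1, 1, 0, -6, 0, 0, -5, 0, 11, 0, 0, 1, 0, -2]⟩, ⟨[71, 520], 1, 2, [423, 434], [-5, 2, 0, -2, 6, 6, 0, 0, 5, -11, -1, 0, 0, -1, 2]⟩, ⟨[296, 289, 388, 194], 1, 3, [64, 78, 132, 138], []⟩, ⟨[296, 458, 388, 472], 1, 3, [422, 577, 362, 442], []⟩, ⟨[345, 288, 29, 215], 1, 3, [274, 7, 0, 306], []⟩]),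
  (0, [⟨[162], 1, 1, [1], [-3, 0, 0, 0, -6, 5, 0, 0, 0, 11, -1, 0, 0, 0, -2]⟩, ⟨[112, 294], 1, 2, [258, 475], [-3, 0, -6, 5, 0, 1, 0, 6, -6, 0, 0, 0, -1, 1]⟩, ⟨[112, 143], 1, 2, [500, 370], [2, 0, -4, -2, -5, 0, 0, 6, 10, 6, 0, 0, -1, -2, -1]⟩, ⟨[146, 0, 0, 0, 0, 285, 0, 0, 0, 0], 1, 3, [118, 513, 278, 120, 299, 256, 241, 219, 158, 257], []⟩]),
  (0, [⟨[568, 0, 0, 0, 0], 1, 3, [0, 0, 0, 371], []⟩, ⟨[518, 0, 0, 0, 0], 1, 3, [0, 0, 0, 302], []⟩, ⟨[122, 0, 0, 0, 0], 1, 3, [0, 0, 0, 31], []⟩]),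
  (0, [⟨[583, 385, 21], 1, 3, [404, 10, 474], []⟩, ⟨[253, 543, 434, 345, 125, 316, 207, 304, 568, 87, 388, 586], 1, 3, [537, 176, 512, 284, 426, 84, 42, 440, 9, 183, 291, 444], []⟩]),
  (13, []),
  (0, [⟨[236, 289, 33], 1, 3, [552, 468, 299], []⟩, ⟨[400, 92, 247, 463, 495, 112, 606, 208, 300, 536, 461, 580], 1, 3, [393, 524, 188, 120, 487, 102, 252, 267, 602, 316, 458, 167], []⟩]),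
  (0, [⟨[336], 1, 1, [1], [3, -1, 1, 1, 0, -5, 0, 0, -5, 0, 1, 0, 0, 1]⟩, ⟨[212, 319], 1, 2, [38, 551], [4, -1, -1, -5, 1, -10, 5, 5, 6, -5, 2, -1, -1, -1, 1]⟩, ⟨[97, 495, 25, 571], 1, 3, [370, 532, 297, 518], []⟩, ⟨[392, 104, 15, 281], 1, 3, [362, 388, 17], []⟩, ⟨[97, 497, 25, 344], 1, 3, [246, 388, 419, 41], []⟩]),
  (0, [⟨[286, 132, 449], 1, 3, [249, 205, 88], []⟩, ⟨[531, 156, 615, 354, 568, 456], 1, 3, [418, 18, 271, 610, 560, 115], []⟩, ⟨[531, 456, 101, 442, 305, 333], 1, 3, [561, 316, 229, 478, 342, 460], []⟩]),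
  (7, []),
  (17, []),
  (0, [⟨[2, 0, 0, 0, 0, 625, 0, 0, 0, 0, 6, 0, 0, 0, 0], 1, 3, [0, 0, 0, 579, 0, 0, 0, 0, 512, 0, 0, 0, 0, 322], []⟩]),
  (7, []),
  (0, [⟨[118, 0, 0, 0, 0], 1, 3, [0, 0, 0, 624], []⟩, ⟨[239, 0, 0, 0, 0, 529, 0, 0, 0, 0], 1, 3, [0, 0, 0, 366, 0, 0, 0, 0, 420], []⟩]),
  (0, [⟨[94], 1, 1, [1], [1, 0, -1, 1, 0, 0, 0, 0, -5, 0, 0, 0, 0, 1]⟩, ⟨[223], 1, 1, [1], [-4, 0, -5, 0, 0, 6, 0, 6, 0, 0, -1, 0, -1]⟩, ⟨[241], 1, 1, [1], [1, 2, 0, -6, 0, 0, -5, 0, 11, 0, 0, 1, 0, -2]⟩, ⟨[489, 589, 432, 402], 1, 3, [270, 412, 0, 15], []⟩, ⟨[58, 254, 425, 420], 1, 3, [456, 201, 0, 106], []⟩, ⟨[93, 172, 166, 549], 1, 3, [447, 80, 0, 138], []⟩]),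
  (0, [⟨[407], 1, 1, [1], [-3, 2, 0, 0, 0, 5, -5, 0, 0, 0, -1, 1]⟩, ⟨[538, 570], 1, 2, [410, 498], [-3, -1, 0, 5, -6, 1, 0, 0, -6, 11, 0, 0, 0, 1, -2]⟩, ⟨[412, 261, 221, 223], 1, 3, [452, 109, 609, 202], []⟩, ⟨[358, 198, 630, 240], 1, 3, [274, 83, 587], []⟩, ⟨[412, 368, 221, 501], 1, 3, [101, 571, 194, 276], []⟩]),
  (11, []),
  (0, [⟨[146], 1, 1, [1], [3, -2, 1, 0, 0, -5, 5, -5, 0, 0, 1, -1, 1]⟩, ⟨[539, 617], 1, 2, [569, 213], [1, -2, 2, 0, 1, -5, 0, -5, 0, -5, 1, 0, 1, 0, 1]⟩, ⟨[64, 221, 352, 246], 1, 3, [407, 273, 469, 234], []⟩, ⟨[64, 618, 352, 443], 1, 3, [615, 163, 314, 523], []⟩, ⟨[563, 62, 233, 507], 1, 3, [88, 99, 0, 80], []⟩]),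
  (0, [⟨[303], 1, 1, [1], [-1, -2, 1, -5, 0, 0, 5, -5, 6, 0, 0, -1, 1, -1]⟩, ⟨[614, 85], 1, 2, [384, 84], [1, -1, -5, 6, 6, -5, 0, 11, -11, -11, 1, 0, -2, 2, 2]⟩, ⟨[451, 631], 1, 2, [385, 357], [-1, -5, -1, -7, 5, 5, 6, 5, 11, -6, -1, -1, -1, -2, 1]⟩, ⟨[614, 312], 1, 2, [300, 505], [3, -3, -1, 7, -5, -5, 6, 0, -11, 6, 1, -1, 0, 2, -1]⟩, ⟨[614, 58], 1, 2, [421, 190], [1, -4, -6, 1, -6, -5, 6, 6, -5, 11, 1, -1, -1, 1, -2]⟩, ⟨[614, 467], 1, 2, [576, 6], [1, 5, -1, 0, -1, -1, -11, 5, 0, 5, 0, 2, -1, 0, -1]⟩, ⟨[614, 396], 1, 2, [254, 32], [-1, 2, 0, -5, 0, 5, -5, 0, 11, 0, -1, 1, 0, -2]⟩, ⟨[451, 384], 1, 2, [361, 283], [1, -6, 2, -6, -1, -5, 6, -5, 11, 5, 1, -1, 1, -2, -1]⟩]),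
  (0, [⟨[2, 0, 0, 0, 0, 655, 0, 0, 0, 0, 6, 0, 0, 0, 0], 1, 3, [0, 0, 0, 464, 0, 0, 0, 0, 400, 0, 0, 0, 0, 9], []⟩]),
  (23, []),
  (11, []),
  (0, [⟨[641, 494, 548], 1, 3, [193, 490, 663], []⟩, ⟨[631, 277, 234, 71, 615, 313, 156, 241, 220, 452, 33, 125], 1, 3, [505, 432, 500, 434, 435, 333, 346, 429, 604, 103, 137, 466], []⟩]),
  (0, [⟨[52], 1, 1, [1], [0, -1, -1, -5, 1, 0, 0, 5, 6, -5, 0, 0, -1, -1, 1]⟩, ⟨[174, 552], 1, 2, [564, 204], [-3, -4, -1, -6, 0, 5, 10, 5, 11, 0, -1, -2, -1, -2]⟩, ⟨[189, 541, 101, 132], 1, 3, [95, 40, 522, 444], []⟩, ⟨[661, 208, 4, 625], 1, 3, [474, 304, 220], []⟩, ⟨[189, 50, 101, 670], 1, 3, [60, 646, 206, 312], []⟩]),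
  (7, []),
  (0, [⟨[516], 1, 1, [1], [-3, 0, 1, 1, 0, 5, 0, -5, -5, 0, -1, 0, 1, 1]⟩, ⟨[592, 151], 1, 2, [32, 375], [1, -2, 1, 0, 7, 0, 5, -5, 0, -11, 0, -1, 1, 0, 2]⟩, ⟨[598, 540, 11, 436], 1, 3, [297, 11, 193, 580], []⟩, ⟨[664, 86, 114, 167], 1, 3, [272, 27, 0, 197], []⟩, ⟨[598, 62, 11, 96], 1, 3, [534, 359, 7, 155], []⟩]),
  (13, []),
  (0, [⟨[9], 1, 1, [1], [2, -1, 1, 0, -1, -5, 0, -5, 0, 5, 1, 0, 1, 0, -1]⟩, ⟨[497], 1, 1, [1], [-1, 0, 1, 1, 0, 0, 0, 0, -5, 0, 0, 0, 0, 1]⟩, ⟨[525], 1, 1, [1], [-2, 0, 1, -5, 0, 5, 0, -5, 6, 0, -1, 0, 1, -1]⟩, ⟨[116], 1, 1, [1], [0, -1, -6, 0, -1, 0, 0, 11, 0, 5, 0, 0, -2, 0, -1]⟩, ⟨[428], 1, 1, [1], [1, -2, -5, 0, 0, 0, 5, 6, 0, 0, 0, -1, -1]⟩, ⟨[110], 1, 1, [1], [1, 0, -1, 0, -6, 0, 0, 0,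 0, 11, 0, 0, 0, 0, -2]⟩, ⟨[200], 1, 1, [1], [-4, -1, 1, 0, 0, 6, 0, -5, 0, 0, -1, 0, 1]⟩, ⟨[142], 1, 1, [1], [1, 0, 0, 1, -1, 0, 0, 0, -5, 5, 0, 0, 0, 1, -1]⟩, ⟨[87], 1, 1, [1], [0, -1, 0, 1, 1, 0, 0, 0, -5, -5, 0, 0, 0, 1, 1]⟩, ⟨[650], 1, 1, [1], [1, 2, 1, -1, 0, 0, -5, 0, 5, 0, 0, 1, 0, -1]⟩, ⟨[434, 0, 0, 0, 0], 1, 3, [0, 0, 0, 439], []⟩]),
  (17, [])] (by decide +kernel)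

theorem a4 : CovA fl 30 1373170 m 2 ρ 700 (700 + 472) := covA _ _ _ _ _ _ _ _
  [(0, [⟨[72, 586], 1, 2, [321, 542], [-2, 1, 1, -1, -6, 0, 0, 5, 5, 11, 0, 0, -1, -1, -2]⟩, ⟨[99, 617], 1, 2, [114, 203], [-3, -2, 0, -7, 0, 6, 10, 0, 11, 0, -1, -2, 0, -2]⟩, ⟨[399, 280], 1, 2, [106, 530], [-3, -4, 0, -1, 0, 1, 10, 0, 0, 0, 0, -2]⟩, ⟨[371, 385], 1, 2, [332, 570], [4, 1, 0, 0, 6, -10, -5, -5, 0, -11, 2, 1, 1, 0, 2]⟩, ⟨[461, 235], 1, 2, [529, 258], [1, -6, 1, 5, 5, 0, 11, -5, -11, -6, 0, -2, 1, 2, 1]⟩, ⟨[196, 0, 0, 0, 0], 1, 3, [0, 0, 0, 239], []⟩]),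
  (19, []),
  (7, []),
  (0, [⟨[477, 94, 244], 1, 3, [124, 151, 555], []⟩, ⟨[60, 708, 390, 348, 253, 358], 1, 3, [346, 90, 307, 403, 641, 591], []⟩, ⟨[60, 172, 484, 132, 402, 107], 1, 3, [431, 102, 378, 361, 495, 493], []⟩]),
  (23, []),
  (0, [⟨[484], 1, 1, [1], [1, 0, -1, 1, 5, 0, 0, 0, -5, -6, 0, 0, 0, 1, 1]⟩, ⟨[138, 337], 1, 2, [81, 151], [4, -1, 0, -2, 1, -10, 0, 0, 10, -5, 2, 0, 0, -2, 1]⟩, ⟨[138, 617], 1, 2, [176, 370], [3, -5, -1, -6, -5, -5, 6, 5, 6, 6, 1, -1, -1, -1, -1]⟩, ⟨[319, 0, 0, 0, 0, 290, 0, 0, 0, 0], 1, 3, [479, 588, 400, 84, 23, 100, 633, 593, 171, 343], []⟩]),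
  (7, []),
  (0, [⟨[40], 1, 1, [1], [-6, 0, 1, 0, 0, 11, 0, 0, 0, 0, -2]⟩, ⟨[271], 1, 1, [1], [0, -1, 0, 5, -1, 0, 0, 0, -6, 5, 0, 0, 0, 1, -1]⟩, ⟨[511], 1, 1, [1], [-1, -1, 0, 0, -6, 0, 5, 0, 0, 11, 0, -1, 0, 0, -2]⟩, ⟨[494, 703, 581, 687], 1, 3, [484, 624, 322], []⟩, ⟨[531, 568, 713, 456], 1, 3, [270, 588, 227], []⟩, ⟨[337, 22, 599, 216], 1, 3, [234, 575, 513], []⟩]),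
  (17, []),
  (0, [⟨[266], 1, 1, [1], [0, -1, 0, -6, 1, 0, 0, 0, 11, -5, 0, 0, 0, -2, 1]⟩, ⟨[482], 1, 1, [1], [1, -1, 2, 0, 0, 0, 0, -5, 0, 0, 0, 0, 1]⟩, ⟨[470], 1, 1, [1], [1, 1, -5, 0, 0, 0, 0, 6, 0, 0, 0, 0, -1]⟩, ⟨[545, 586, 466, 263], 1, 3, [235, 367, 0, 663], []⟩, ⟨[97, 242, 37, 251], 1, 3, [523, 398, 0, 463], []⟩, ⟨[454, 145, 345, 467], 1, 3, [583, 275, 0, 635], []⟩]),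
  (11, []),
  (0, [⟨[612], 1, 1, [1], [-1, 1, 1, -6, 0, 0, 0, 0, 11, 0, 0, 0, 0, -2]⟩, ⟨[63], 1, 1, [1], [1, 1, 0, 1, 0, -5, 0, 0, 0, 0, 1]⟩, ⟨[726], 1, 1, [1], [1, 2, -1, -1, 1, 0, -5, 0, 5, -5, 0, 1, 0, -1, 1]⟩, ⟨[465, 632], 1, 2, [407, 422], [-3, -2, -5, 1, 0, 5, 5, 1, -5, 0, -1, -1, 0, 1]⟩, ⟨[570, 683], 1, 2, [608, 444], [1, -1, -3, 1, 5, -5, 0, 5, 0, -6, 1, 0, -1, 0, 1]⟩, ⟨[129, 333], 1, 2, [444, 490], [0, 0, 1, -1, 6, -5, 0, 0, 5, -6, 1, 0, 0, -1, 1]⟩, ⟨[570, 69], 1, 2, [472, 72], [-1, -4, 0, -6, -5, 0, 6, 5, 11, 6, 0, -1, -1, -2, -1]⟩, ⟨[129, 533], 1, 2, [359, 312], [-1, 1, -8, 0, 1, 5, 0, 16, 0, -5, -1, 0, -3, 0, 1]⟩, ⟨[465, 44], 1, 2, [637, 139], [-4, 0, 1, -6, -1, 10, 0, -5, 11, 5, -2, 0, 1, -2, -1]⟩]),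
  (0, [⟨[351], 1, 1, [1], [1, -1, 1, 0, 1, -5, 0, 0, 0, -5, 1, 0, 0, 0, 1]⟩, ⟨[97, 70], 1, 2, [573, 111], [-1, -5, 0, -5, -1, 0, 11, 0, 6, 5, 0, -2, 0, -1, -1]⟩, ⟨[250, 567, 10, 135], 1, 3, [675, 732, 242, 550], []⟩, ⟨[250, 279, 10, 538], 1, 3, [598, 362, 171, 285], []⟩, ⟨[549, 535, 137, 392], 1, 3, [474, 738, 0, 114], []⟩]),
  (7, []),
  (0, [⟨[2, 0, 0, 0, 0, 745, 0, 0, 0, 0, 6, 0, 0, 0, 0], 1, 3, [0, 0, 0, 177, 0, 0, 0, 0, 271, 0, 0, 0, 0, 369], []⟩]),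
  (0, [⟨[517, 43, 274], 1, 3, [204, 378, 582], []⟩, ⟨[675, 736, 606, 659, 728, 16, 601, 227, 200, 37, 581, 483], 1, 3, [566, 303, 62, 5, 124, 164, 184, 461, 388, 287, 2, 548], []⟩]),
  (0, [⟨[293, 0, 0, 0, 0], 1, 3, [0, 0, 0, 87], []⟩, ⟨[374, 0, 0, 0, 0, 474, 0, 0, 0, 0], 1, 3, [0, 0, 0, 698, 0, 0, 0, 0, 329], []⟩]),
  (7, []),
  (13, []),
  (0, [⟨[507, 546, 226], 1, 3, [374, 62, 705], []⟩, ⟨[566, 701, 595, 19, 682, 257], 1, 3, [711, 625, 258, 593, 684, 377], []⟩, ⟨[566, 50, 687, 599, 435, 286], 1, 3, [638, 350, 421, 742, 456, 616], []⟩]),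
  (0, [⟨[463], 1, 1, [1], [2, 0, -5, 0, 0, -5, 0, 6, 0, 0, 1, 0, -1]⟩, ⟨[103, 442], 1, 2, [510, 295], [2, -1, -7, 0, -1, 0, 5, 16, 5, 5, 0, -1, -3, -1, -1]⟩, ⟨[213, 606, 669, 517], 1, 3, [111, 695, 511, 133], []⟩, ⟨[213, 86, 669, 587], 1, 3, [763, 734, 548, 276], []⟩, ⟨[336, 353, 525, 310], 1, 3, [725, 60, 0, 88], []⟩]),
  (19, []),
  (11, []),
  (0, [⟨[722, 495, 631], 1, 3, [55, 574, 114], []⟩, ⟨[109, 709, 561, 438, 41, 342, 102, 367, 208, 181, 353, 156], 1, 3, [108, 106, 81, 516, 604, 673, 648, 424, 427, 639, 742, 420], []⟩]),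
  (7, []),
  (13, []),
  (0, [⟨[7], 1, 1, [1], [0, 2, -1, -5, 0, 0, -5, 5, 6, 0, 0, 1, -1, -1]⟩, ⟨[41, 48], 1, 2, [425, 414], [-4, -1, -7, 1, -1, 5, 5, 11, 0, 5, -1, -1, -2, 0, -1]⟩, ⟨[787, 454, 748, 790], 1, 3, [540, 494, 255], []⟩, ⟨[710, 341, 761, 699], 1, 3, [570, 75, 397, 795], []⟩, ⟨[710, 33, 761, 50], 1, 3, [217, 616, 271, 448], []⟩]),
  (17, []),
  (11, []),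
  (0, [⟨[186], 1, 1, [1], [0, 0, 1, 0, 2, 0, 0, 0, 0, -10, 0, 0, 0, 0, 2]⟩, ⟨[191, 113], 1, 2, [62, 228], [2, 1, -1, -5, -6, -5, -5, 0, 6, 11, 1, 1, 0, -1, -2]⟩, ⟨[191, 510], 1, 2, [386, 725], [-5, 3, -1, -1, -5, 11, -5, 5, 0, 6, -2, 1, -1, 0, -1]⟩, ⟨[414, 0, 0, 0, 0, 432, 0, 0, 0, 0], 1, 3, [769, 532, 508, 542, 511, 75, 573, 284, 425, 156], []⟩]),
  (0, [⟨[68, 0, 0, 0, 0], 1, 3, [0, 0, 0, 787], []⟩, ⟨[195, 0, 0, 0, 0], 1, 3, [0, 0, 0, 603], []⟩, ⟨[554, 0, 0, 0, 0], 1, 3, [0, 0, 0, 202], []⟩]),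
  (19, []),
  (0, [⟨[372, 0, 0, 0, 0], 1, 3, [0, 0, 0, 326], []⟩, ⟨[128, 0, 0, 0, 0, 455, 0, 0, 0, 0], 1, 3, [0, 0, 0, 597, 0, 0, 0, 0, 598], []⟩]),
  (0, [⟨[476, 204, 344], 1, 3, [143, 804, 264], []⟩, ⟨[370, 782, 670, 300, 160, 131, 64, 556, 620, 370, 795, 479], 1, 3, [592, 42, 603, 545, 641, 6, 122, 242, 786, 817, 16, 519], []⟩]),
  (0, [⟨[472], 1, 1, [1], [-3, 2, 1, 0, 0, 5, -5, -5, 0, 0, -1, 1, 1]⟩, ⟨[193, 292], 1, 2, [483, 59], [5, 1, 2, 0, 2, -10, -5, -5, 0, -10, 2, 1, 1, 0, 2]⟩, ⟨[334, 656, 506, 355], 1, 3, [557, 443, 517], []⟩, ⟨[793, 461, 165, 306], 1, 3, [720, 437, 163, 431], []⟩, ⟨[793, 486, 165, 229], 1, 3, [404, 184, 516, 102], []⟩]),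
  (0, [⟨[170, 97, 625], 1, 3, [258, 771, 642], []⟩, ⟨[115, 260, 523, 777, 470, 516], 1, 3, [314, 9, 189, 754, 676, 270], []⟩, ⟨[115, 479, 693, 819, 759, 517], 1, 3, [172, 193, 452, 436, 553, 613], []⟩]),
  (7, []),
  (0, [⟨[244], 1, 1, [1], [1, -4, 0, -1, 0, 0, 6, 0, 5, 0, 0, -1, 0, -1]⟩, ⟨[279, 164], 1, 2, [127, 111], [-1, 0, -5, 7, -1, 1, 0, 6, -11, 5, 0, 0, -1, 2, -1]⟩, ⟨[33, 143], 1, 2, [713, 477], [-3, -1, -6, 1, 11, 5, 5, 11, -5, -17, -1, -1, -2, 1, 3]⟩, ⟨[279, 276], 1, 2, [164, 242], [1, 1, -2, 7, -5, 0, -5, 5, -16, 6, 0, 1, -1, 3, -1]⟩, ⟨[279, 251], 1, 2, [53, 511], [-1, -4, -1, -8, -1, 0, 6, 5, 16, 5, 0, -1, -1, -3, -1]⟩, ⟨[279, 299], 1, 2, [94, 106], [-4, -6, 1, 5, 0, 6, 6, 0, -6, 0, -1, -1, 0, 1]⟩, ⟨[279, 688], 1, 2,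 [659, 381], [1, 0, -5, 1, 0, 0, -5, 11, 0, 0, 0, 1, -2]⟩, ⟨[33, 452], 1, 2, [322, 6], [5, -7, 0, -1, -6, -11, 11, 0, 0, 11, 2, -2, 0, 0, -2]⟩]),
  (29, []),
  (7, []),
  (23, []),
  (0, [⟨[815, 243, 103], 1, 3, [58, 795, 398], []⟩, ⟨[449, 200, 139, 207, 79, 187, 125, 294, 59, 273, 237, 750], 1, 3, [403, 184, 655, 10, 464, 752, 469, 217, 167, 16, 212, 40], []⟩]),
  (0, [⟨[564], 1, 1, [1], [-1, 0, 0, 1, -1, 0, 0, 0, 0, 5, 0, 0, 0, 0, -1]⟩, ⟨[806, 206], 1, 2, [571, 502], [-2, -1, -4, -7, 5, 5, 0, 6, 16, -6, -1, 0, -1, -3, 1]⟩, ⟨[827, 361, 567, 123], 1, 3, [255, 750, 814, 234], []⟩, ⟨[81, 807, 708, 293], 1, 3, [352, 833, 474], []⟩, ⟨[827, 274, 567, 528], 1, 3, [229, 244, 110, 747], []⟩]),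
  (0, [⟨[575, 848, 304], 1, 3, [500, 243, 513], []⟩, ⟨[90, 212, 226, 18, 826, 581], 1, 3, [729, 742, 327, 399, 143, 256], []⟩, ⟨[90, 335, 814, 358, 756, 833], 1, 3, [791, 737, 603, 564, 104, 232], []⟩]),
  (0, [⟨[297], 1, 1, [1], [-1, -5, -1, 0, 0, 0, 6, 0, 0, 0, 0, -1]⟩, ⟨[182, 808], 1, 2, [751, 43], [2, 2, -5, 1, 5, -10, -5, 6, -5, -6, 2, 1, -1, 1, 1]⟩, ⟨[533, 438, 744, 579], 1, 3, [196, 25, 105, 164], []⟩, ⟨[533, 771, 744, 339], 1, 3, [640, 583, 112, 45], []⟩, ⟨[168, 18, 680, 566], 1, 3, [83, 163, 0, 130], []⟩]),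
  (11, []),
  (13, []),
  (0, [⟨[80, 847, 430], 1, 3, [170, 692, 707], []⟩, ⟨[285, 655, 687, 413, 691, 361, 55, 687, 701, 353, 177, 447], 1, 3, [429, 489, 520, 86, 508, 187, 115, 624, 30, 576, 508, 251], []⟩]),
  (0, [⟨[455, 0, 0, 0, 0], 1, 3, [0, 0, 0, 217], []⟩, ⟨[91, 0, 0, 0, 0, 432, 0, 0, 0, 0], 1, 3, [0, 0, 0, 542, 0, 0, 0, 0, 295], []⟩]),
  (0, [⟨[200, 256, 281], 1, 3, [169, 632, 89], []⟩, ⟨[415, 705, 126, 7, 131, 428, 522, 687, 694, 723, 253, 602], 1, 3, [789, 837, 662, 615, 25, 581, 629, 69, 323, 12, 478, 503], []⟩]),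
  (0, [⟨[798], 1, 1, [1], [-1, -1, 1, -1, 0, 0, 0, -5, 5, 0, 0, 0, 1, -1]⟩, ⟨[393, 151], 1, 2, [15, 364], [-5, 3, 1, -2, 6, 11, -5, 0, 5, -6, -2, 1, 0, -1, 1]⟩, ⟨[776, 194, 856, 416], 1, 3, [503, 313, 150, 605], []⟩, ⟨[591, 691, 62, 89], 1, 3, [784, 763, 531], []⟩, ⟨[776, 607, 856, 320], 1, 3, [21, 279, 460, 199], []⟩]),
  (7, []),
  (19, []),
  (29, []),
  (17, []),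
  (0, [⟨[660, 320, 556], 1, 3, [237, 601, 608], []⟩, ⟨[448, 305, 772, 161, 43, 661, 387, 546, 555, 463, 738, 351], 1, 3, [73, 135, 185, 796, 142, 891, 556, 298, 828, 338, 582, 38], []⟩]),
  (0, [⟨[713], 1, 1, [1], [3, 2, 1, 0, 0, -5, -5, -5, 0, 0, 1, 1, 1]⟩, ⟨[491], 1, 1, [1], [1, 2, 2, -1, 0, 0, -5, -5, 5, 0, 0, 1, 1, -1]⟩, ⟨[219], 1, 1, [1], [2, 2, 0, 1, -1, -5, -5, 0, -5, 5, 1, 1, 0, 1, -1]⟩, ⟨[517], 1, 1, [1], [-1, 0, 0, -6, 1, 0, 0, 0, 11, -5, 0, 0, 0, -2, 1]⟩, ⟨[793], 1, 1, [1], [2, -1, 0, -6, 1, -5, 0, 0, 11, -5, 1, 0, 0, -2, 1]⟩, ⟨[673, 399], 1, 2, [81, 801], [-1, 2, -5, -2, 1, 0, -5, 6, 10, -5, 0, 1, -1, -2, 1]⟩, ⟨[627, 293], 1, 2, [244, 729], [-6, 0, 5, -1, -1, 6, 0, -11, 0, 5, -1, 0, 2, 0, -1]⟩, ⟨[419, 101], 1, 2, [780,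 643], [-6, -4, 1, 1, -6, 11, 6, 0, -5, 11, -2, -1, 0, 1, -2]⟩, ⟨[33, 97], 1, 2, [89, 186], [0, 1, -7, -6, -5, -5, -5, 11, 6, 6, 1, 1, -2, -1, -1]⟩, ⟨[70, 21], 1, 2, [628, 374], [1, 6, 0, -1, -2, 0, -6, 0, 0, 10, 0, 1, 0, 0, -2]⟩]),
  (11, []),
  (7, []),
  (0, [⟨[680], 1, 1, [1], [2, 1, 0, -6, 0, -5, 0, 0, 11, 0, 1, 0, 0, -2]⟩, ⟨[749], 1, 1, [1], [3, -4, 0, 0, 0, -5, 6, 0, 0, 0, 1, -1]⟩, ⟨[308], 1, 1, [1], [-2, 1, 0, 0, -1, 5, -5, 0, 0, 5, -1, 1, 0, 0, -1]⟩, ⟨[508, 501], 1, 2, [852, 734], [-1, -1, 3, 0, 1, 0, 0, -5, 0, -5, 0, 0, 1, 0, 1]⟩, ⟨[776, 753], 1, 2, [706, 850], [2, -4, -7, 0, 0, -6, 6, 16, 0, 0, 1, -1, -3]⟩, ⟨[776, 405], 1, 2, [809, 114], [3, -6, -1, 1, 1, -6, 6, 0, -5, -5, 1, -1, 0, 1, 1]⟩, ⟨[712, 697], 1, 2, [151, 465],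 [6, 2, 5, 0, 0, -11, 0, -6, -5, 0, 2, 0, 1, 1]⟩, ⟨[508, 588], 1, 2, [440, 905], [-4, -2, 5, 7, -1, 6, 0, -6, -11, 5, -1, 0, 1, 2, -1]⟩, ⟨[712, 833], 1, 2, [401, 565], [-2, 0, -7, 6, 0, 0, 0, 11, -11, 5, 0, 0, -2, 2, -1]⟩]),
  (13, []),
  (0, [⟨[441], 1, 1, [1], [1, -1, 0, -5, 1, 0, 0, 0, 6, -5, 0, 0, 0, -1, 1]⟩, ⟨[609, 264], 1, 2, [185, 259], [1, 0, 6, -6, -1, 0, 0, -6, 16, 5, 0, 0, 1, -3, -1]⟩, ⟨[609, 224], 1, 2, [487, 850], [-1, -3, -7, -1, -1, 5, 1, 11, 0, 5, -1, 0, -2, 0, -1]⟩, ⟨[551, 0, 0, 0, 0, 296, 0, 0, 0, 0], 1, 3, [92, 280, 638, 468, 441, 188, 703, 594, 799, 175], []⟩]),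
  (7, []),
  (0, [⟨[913, 82, 719], 1, 3, [40, 237, 104], []⟩, ⟨[859, 202, 774, 891, 378, 896, 801, 829, 829, 930, 181, 218], 1, 3, [903, 66, 578, 824, 495, 73, 147, 915, 660, 249, 644, 386], []⟩]),
  (0, [⟨[492, 825], 1, 2, [910, 762], [3, -1, -4, 2, 5, -5, 0, 6, -5, -6, 1, 0, -1, 1, 1]⟩, ⟨[446, 758], 1, 2, [402, 714], [-3, 0, 2, 5, 0, 1, 0, 0, -6, 0, 0, 0, 0, 1]⟩, ⟨[389, 920], 1, 2, [8, 180], [1, 3, -3, -1, 7, -5, -5, 1, 5, -16, 1, 1, 0, -1, 3]⟩, ⟨[298, 199], 1, 2, [89, 576], [4, -1, 0, -1, -6, -6, 5, 0, 10, 11, 1, -1, 0, -2, -2]⟩, ⟨[257, 121], 1, 2, [473, 591], [5, -2, 5, -1, 1, -6, 1, -6, 5, -5, 1, 0, 1, -1, 1]⟩, ⟨[110, 0, 0, 0, 0], 1, 3, [0, 0, 0, 837], []⟩]),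
  (23, []),
  (0, [⟨[622], 1, 1, [1], [-2, 0, 1, 0, 0, 0, 0, -5, 0, 0, 0, 0, 1]⟩, ⟨[219, 204], 1, 2, [391, 154], [-3, -1, -5, 1, 2, 6, 5, 11, -5, -10, -1, -1, -2, 1, 2]⟩, ⟨[467, 322, 439, 325], 1, 3, [129, 10, 539], []⟩, ⟨[336, 286, 342, 100], 1, 3, [756, 246, 222, 762], []⟩, ⟨[336, 828, 342, 643], 1, 3, [490, 208, 543, 126], []⟩]),
  (13, []),
  (0, [⟨[96], 1, 1, [1], [-3, 0, 2, -1, 0, 5, 0, -5, 5, 0, -1, 0, 1, -1]⟩, ⟨[319, 596], 1, 2, [662, 599], [0, 2, 2, 1, -6, 0, -5, -5, -10, 6, 0, 1, 1, 2, -1]⟩, ⟨[210, 300, 249, 582], 1, 3, [542, 790, 268, 485], []⟩, ⟨[210, 177, 249, 728], 1, 3, [797, 180, 48, 171], []⟩, ⟨[516, 601, 314, 857], 1, 3, [156, 359, 0, 467], []⟩]),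
  (7, []),
  (31, []),
  (0, [⟨[467, 174, 79], 1, 3, [6, 382, 662], []⟩, ⟨[762, 915, 199, 895, 519, 867, 204, 381, 107, 215, 354, 888], 1, 3, [409, 45, 179, 625, 161, 70, 791, 668, 941, 941, 376, 738], []⟩]),
  (0, [⟨[696, 0, 0, 0, 0], 1, 3, [0, 0, 0, 821], []⟩, ⟨[399, 0, 0, 0, 0, 281, 0, 0, 0, 0], 1, 3, [0, 0, 0, 725, 0, 0, 0, 0, 946], []⟩]),
  (7, []),
  (0, [⟨[22], 1, 1, [1], [1, 0, 1, -5, 0, 0, 0, -5, 6, 0, 0, 0, 1, -1]⟩, ⟨[469, 883], 1, 2, [226, 670], [2, -5, 6, 1, -5, -5, 6, -11, -5, 6, 1, -1, 2, 1, -1]⟩, ⟨[841, 904, 504, 223], 1, 3, [160, 818, 580, 211], []⟩, ⟨[224, 99, 493, 955], 1, 3, [608, 902, 82], []⟩, ⟨[841, 929, 504, 848], 1, 3, [121, 633, 552, 629], []⟩]),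
  (11, []),
  (0, [⟨[284], 1, 1, [1], [-1, 1, 0, 1, 1, 0, -5, 0, -5, -5, 0, 1, 0, 1, 1]⟩, ⟨[529, 561], 1, 2, [969, 354], [0, -2, 4, -7, -1, 0, 0, -1, 11, 5, 0, 0, 0, -2, -1]⟩, ⟨[314, 835, 218, 903], 1, 3, [612, 616, 696, 586], []⟩, ⟨[449, 545, 933, 699], 1, 3, [405, 531, 0, 602], []⟩, ⟨[314, 51, 218, 502], 1, 3, [388, 849, 418, 507], []⟩]),
  (23, []),
  (0, [⟨[2, 0, 0, 0, 0, 985, 0, 0, 0, 0, 6, 0, 0, 0, 0], 1, 3, [0, 0, 0, 785, 0, 0, 0, 0, 524, 0, 0, 0, 0, 845], []⟩]),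
  (0, [⟨[6], 1, 1, [1], [-3, 0, 0, -5, 1, 5, 0, 0, 6, -5, -1, 0, 0, -1, 1]⟩, ⟨[301], 1, 1, [1], [0, 0, -1, 0, 0, 0, 0, 5, 5, 0, 0, 0, -1, -1]⟩, ⟨[437], 1, 1, [1], [1, 0, 0, 0, 0, -5, 0, -5, 0, 0, 1, 0, 1]⟩, ⟨[698, 781, 961, 991], 1, 3, [144, 12, 4], []⟩, ⟨[76, 40, 126, 696], 1, 3, [671, 334, 509], []⟩, ⟨[351, 432, 455, 560], 1, 3, [738, 991, 292], []⟩]),
  (7, []),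
  (17, []),
  (19, []),
  (0, [⟨[328, 323, 293], 1, 3, [111, 602, 326], []⟩, ⟨[379, 382, 119, 873, 314, 936], 1, 3, [207, 759, 615, 574, 787, 611], []⟩, ⟨[379, 626, 335, 610, 204, 789], 1, 3, [601, 774, 36, 555, 700, 202], []⟩]),
  (0, [⟨[504], 1, 1, [1], [0, -1, 0, -1, -6, 0, 0, 0, 5, 11, 0, 0, 0, -1, -2]⟩, ⟨[884, 190], 1, 2, [80, 479], [-2, -1, -5, 2, 1, 0, 5, 6, -5, -5, 0, -1, -1, 1, 1]⟩, ⟨[784, 902, 247, 509], 1, 3, [543, 188, 0, 617], []⟩, ⟨[580, 0, 755, 823], 1, 3, [203, 6, 895, 938], []⟩, ⟨[580, 815, 755, 0], 1, 3, [661, 809, 673, 148], []⟩]),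
  (0, [⟨[753], 1, 1, [1], [1, 2, 0, -5, 0, -5, -5, 0, 6, 0, 1, 1, 0, -1]⟩, ⟨[574, 972], 1, 2, [893, 38], [1, -5, 1, 6, -2, 0, 6, -5, -6, 10, 0, -1, 1, 1, -2]⟩, ⟨[574, 313], 1, 2, [375, 665], [-1, -2, -7, 0, -6, 5, 5, 11, 0, 11, -1, -1, -2, 0, -2]⟩, ⟨[747, 0, 0, 0, 0, 508, 0, 0, 0, 0], 1, 3, [500, 113, 257, 224, 37, 673, 31, 837, 374, 1002], []⟩]),
  (0, [⟨[422], 1, 1, [1], [-1, 1, 1, 0, 1, 5, 0, 0, 0, -5, -1, 0, 0, 0, 1]⟩, ⟨[455], 1, 1, [1], [-2, 0, 1, 0, -6, 5, 0, -5, 0, 11, -1, 0, 1, 0, -2]⟩, ⟨[493], 1, 1, [1], [-1, 2, 0, 1, -1, 5, -5, 0, -5, 5, -1, 1, 0, 1, -1]⟩, ⟨[413], 1, 1, [1], [1, 1, 1, 0, 0, 0, 0, -5, 0, 0, 0, 0, 1]⟩, ⟨[259], 1, 1, [1], [-2, 1, 1, -6, 0, 5, 0, 0, 11, 0, -1, 0, 0, -2]⟩, ⟨[335], 1, 1, [1], [0, 1, -7, 0,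 1, 0, 0, 11, 0, -5, 0, 0, -2, 0, 1]⟩, ⟨[147], 1, 1, [1], [1, 0, 0, -5, -1, 0, 0, 0, 6, 5, 0, 0, 0, -1, -1]⟩, ⟨[479], 1, 1, [1], [3, 0, 0, -6, -1, -5, 0, 0, 11, 5, 1, 0, 0, -2, -1]⟩, ⟨[819], 1, 1, [1], [1, 0, -5, 0, -1, 0, 0, 6, 0, 5, 0, 0, -1, 0, -1]⟩, ⟨[262], 1, 1, [1], [1, 0, -4, 0, 0, 0, 0, 6, 0, 0, 0, 0, -1]⟩, ⟨[505, 0, 0, 0, 0], 1, 3, [0, 0, 0, 13], []⟩]),
  (13, []),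
  (0, [⟨[791], 1, 1, [1], [1, 0, 0, 0, 0, 0, 0, -5, 0, 0, 0, 0, 1]⟩, ⟨[431], 1, 1, [1], [0, 1, -7, 0, 0, 0, 0, 11, 0, 0, 0, 0, -2]⟩, ⟨[562], 1, 1, [1], [-3, 0, 0, 1, -1, 5, 0, 0, 0, 5, -1, 0, 0, 0, -1]⟩, ⟨[935], 1, 1, [1], [-1, 1, 0, 1, 0, 5, 0, 0, 0, 0, -1]⟩, ⟨[374], 1, 1, [1], [-2, 1, 1, -1, 0, 5, 0, -5, 5, 0, -1, 0, 1, -1]⟩, ⟨[675, 0, 0, 0, 0, 591, 0, 0, 0, 0], 1, 3, [0, 0, 0, 97, 0, 0, 0, 0, 109], []⟩]),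
  (0, [⟨[1014, 205, 256], 1, 3, [232, 534, 417], []⟩, ⟨[870, 851, 842, 280, 729, 448, 288, 515, 497, 162, 371, 777], 1, 3, [466, 823, 549, 363, 262, 577, 382, 107, 267, 112, 213, 89], []⟩]),
  (17, []),
  (0, [⟨[532, 527, 541], 1, 3, [734, 857, 562], []⟩, ⟨[623, 721, 189, 167, 762, 954], 1, 3, [57, 637, 644, 753, 303, 417], []⟩, ⟨[623, 152, 227, 761, 384, 583], 1, 3, [649, 375, 347, 230, 167, 365], []⟩]),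
  (7, []),
  (0, [⟨[102], 1, 1, [1], [1, 0, -2, -5, 0, 0, 0, 5, 6, 0, 0, 0, -1, -1]⟩, ⟨[86, 316], 1, 2, [41, 179], [-7, -6, -1, -5, 0, 11, 6, 0, 6, 0, -2, -1, 0, -1]⟩, ⟨[86, 631], 1, 2, [31, 748], [-2, 1, -6, 4, 5, 5, 0, 11, -1, -6, -1, 0, -2, 0, 1]⟩, ⟨[215, 0, 0, 0, 0, 894, 0, 0, 0, 0], 1, 3, [522, 263, 1001, 530, 315, 626, 1043, 408, 602, 803], []⟩]),
  (0, [⟨[478, 0, 0, 0, 0], 1, 3, [0, 0, 0, 175], []⟩, ⟨[555, 0, 0, 0, 0], 1, 3, [0, 0, 0, 482], []⟩, ⟨[24, 0, 0, 0, 0], 1, 3, [0, 0, 0, 718], []⟩]),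
  (7, []),
  (0, [⟨[1035], 1, 1, [1], [-1, -1, 0, 0, -6, 0, 0, 0, 0, 11, 0, 0, 0, 0, -2]⟩, ⟨[646], 1, 1, [1], [-2, 1, 0, -6, 0, 5, -5, 0, 11, 0, -1, 1, 0, -2]⟩, ⟨[1007], 1, 1, [1], [0, -4, 0, 7, 0, 0, 6, 0, -11, 0, 0, -1, 0, 2]⟩, ⟨[852], 1, 1, [1], [0, -1, 0, -5, 0, 0, 5, 0, 6, 0, 0, -1, 0, -1]⟩, ⟨[704], 1, 1, [1], [-3, 0, 1, 0, -1, 5, 0, -5, 0, 5, -1, 0, 1, 0, -1]⟩, ⟨[648, 0, 0, 0, 0, 304, 0, 0, 0, 0], 1, 3, [0, 0, 0, 647, 0, 0, 0, 0, 142], []⟩]),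
  (0, [⟨[529, 21, 106], 1, 3, [1012, 362, 776], []⟩, ⟨[426, 602, 371, 195, 970, 958, 837, 490, 741, 941, 436, 957], 1, 3, [202, 133, 960, 636, 366, 6, 194, 852, 821, 1014, 473, 8], []⟩]),
  (11, []),
  (0, [⟨[854], 1, 1, [1], [1, 1, 0, 0, 0, 0, 0, 0, 5, 0, 0, 0, 0, -1]⟩, ⟨[541], 1, 1, [1], [-1, 0, -5, 0, 6, 0, 0, 6, 0, -11, 0, 0, -1, 0, 2]⟩, ⟨[640], 1, 1, [1], [1, 2, 2, 0, -1, 0, -5, -5, 0, 5, 0, 1, 1, 0, -1]⟩, ⟨[811, 739], 1, 2, [850, 815], [1, 0, 6, 6, 0, -1, 0, -11, -16, 0, 0, 0, 2, 3]⟩, ⟨[896, 814], 1, 2, [187, 144], [-1, -6, 7, -6, 6, 0, 11, -11, 6, -11, 0, -2, 2, -1, 2]⟩, ⟨[225, 184], 1, 2, [172, 277], [2, 3, -4, 5, 0, -5, -10, 1, -6, 0, 1, 2, 0, 1]⟩, ⟨[811, 545], 1, 2, [40, 196], [1, -4, -6, 8, 0, 0, 6, 11, -16, 0, 0, -1,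 -2, 3]⟩, ⟨[896, 684], 1, 2, [1034, 97], [-5, -2, 1, 0, 5, 6, 1, -5, 0, -6, -1, 0, 1, 0, 1]⟩, ⟨[225, 344], 1, 2, [486, 830], [-1, -4, -1, 1, -7, 1, 6, 5, -5, 11, 0, -1, -1, 1, -2]⟩]),
  (29, []),
  (13, []),
  (23, []),
  (0, [⟨[587, 996, 428], 1, 3, [996, 136, 1058], []⟩, ⟨[987, 453, 982, 631, 277, 316, 424, 408, 1062, 516, 610, 659], 1, 3, [78, 265, 734, 968, 880, 877, 690, 233, 1049, 611, 233, 396], []⟩]),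
  (0, [⟨[72, 0, 0, 0, 0], 1, 3, [0, 0, 0, 68], []⟩, ⟨[697, 0, 0, 0, 0, 1025, 0, 0, 0, 0], 1, 3, [0, 0, 0, 226, 0, 0, 0, 0, 456], []⟩]),
  (0, [⟨[257], 1, 1, [1], [-1, 2, 2, -1, 0, 0, -5, -5, 5, 0, 0, 1, 1, -1]⟩, ⟨[183], 1, 1, [1], [-2, -1, -6, 0, 0, 5, 0, 11, 0, 0, -1, 0, -2]⟩, ⟨[998], 1, 1, [1], [-1, 0, -1, -5, 0, 5, 0, 0, 6, 0, -1, 0, 0, -1]⟩, ⟨[1063, 1057, 394, 910], 1, 3, [420, 504, 0, 35], []⟩, ⟨[828, 463, 812, 95], 1, 3, [543, 466, 0, 674], []⟩, ⟨[825, 790, 624, 836], 1, 3, [55, 417, 0, 823], []⟩]),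
  (0, [⟨[206], 1, 1, [1], [-1, 2, 1, 0, 0, 0, -5, 0, 0, 0, 0, 1]⟩, ⟨[299, 1021], 1, 2, [613, 45], [1, -3, 2, -5, -5, 0, 5, -5, 11, 6, 0, -1, 1, -2, -1]⟩, ⟨[261, 177, 347, 891], 1, 3, [619, 771, 327], []⟩, ⟨[553, 156, 1006, 315], 1, 3, [949, 402, 544, 601], []⟩, ⟨[553, 157, 1006, 858], 1, 3, [880, 331, 996, 908], []⟩]),
  (7, []),
  (0, [⟨[136], 1, 1, [1], [-1, -1, 0, -5, -1, 0, 0, 0, 6, 5, 0, 0, 0, -1, -1]⟩, ⟨[843, 535], 1, 2, [871, 139], [-5, -1, 6, -10, 0, 11, 0, -11, 12, 0, -2, 0, 2, -2]⟩, ⟨[52, 487, 255, 967], 1, 3, [404, 814, 0, 224], []⟩, ⟨[786, 490, 232, 354], 1, 3, [529, 597, 990, 96], []⟩, ⟨[786, 491, 232, 214], 1, 3, [268, 685, 914, 995], []⟩]),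
  (0, [⟨[285], 1, 1, [1], [-2, -6, -1, 0, 0, 5, 11, 0, 0, 0, -1, -2]⟩, ⟨[841, 374], 1, 2, [126, 539], [-5, 0, 3, 2, 0, 10, 0, -10, -5, 0, -2, 0, 2, 1]⟩, ⟨[841, 450], 1, 2, [53, 330], [2, 1, 0, 6, 0, -1, -5, -5, -6, 0, 0, 1, 1, 1]⟩, ⟨[541, 0, 0, 0, 0, 88, 0, 0, 0, 0], 1, 3, [596, 527, 590, 904, 297, 951, 314, 629, 714, 162], []⟩]),
  (11, []),
  (0, [⟨[1075, 206, 697], 1, 3, [558, 762, 771], []⟩, ⟨[266, 560, 459, 847, 668, 992, 160, 104, 429, 688, 997, 420], 1, 3, [300, 411, 850, 161, 1059, 1012, 769, 51, 695, 934, 1079, 112], []⟩]),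
  (19, []),
  (0, [⟨[942, 466, 9], 1, 3, [848, 338, 745], []⟩, ⟨[546, 109, 618, 334, 555, 803, 207, 849, 957, 48, 576, 1114], 1, 3, [472, 620, 86, 305, 659, 676, 175, 552, 92, 641, 579, 489], []⟩]),
  (7, []),
  (0, [⟨[1037, 45, 1032], 1, 3, [384, 1012, 24], []⟩, ⟨[568, 267, 550, 251, 790, 204], 1, 3, [954, 184, 1044, 115, 436, 996], []⟩, ⟨[568, 109, 937, 1121, 669, 1022], 1, 3, [922, 1099, 466, 452, 37, 43], []⟩]),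
  (11, []),
  (17, []),
  (7, []),
  (31, []),
  (0, [⟨[660, 880], 1, 2, [408, 20], [1, -1, -3, 1, 2, 0, 0, 1, -5, -10, 0, 0, 0, 1, 2]⟩, ⟨[943, 415], 1, 2, [463, 999], [0, 2, 7, 0, -12, 0, -5, -11, 5, 22, 0, 1, 2, -1, -4]⟩, ⟨[739, 299], 1, 2, [454, 482], [-3, -3, -1, -1, -5, 6, 10, 0, 5, 6, -1, -2, 0, -1, -1]⟩, ⟨[599, 218], 1, 2, [855, 1027], [-1, 2, -2, 0, 11, 5, -5, 5, 0, -17, -1, 1, -1, 0, 3]⟩, ⟨[512, 490], 1, 2, [122, 925], [1, 1, -1, 12, -1, -5, 0, 0, -22, 5, 1, 0, 0, 4, -1]⟩, ⟨[368, 0, 0, 0, 0], 1, 3, [0, 0, 0, 495], []⟩]),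
  (0, [⟨[478, 982, 531], 1, 3, [763, 749, 856], []⟩, ⟨[796, 690, 559, 84, 1058, 255, 250, 52, 96, 474, 695, 622], 1, 3, [598, 724, 292, 1008, 483, 187, 972, 98, 15, 1077, 891, 812], []⟩]),
  (13, []),
  (19, []),
  (0, [⟨[208], 1, 1, [1], [0, 0, -1, -6, 1, 0, 0, 0, 11, -5, 0, 0, 0, -2, 1]⟩, ⟨[411, 992], 1, 2, [1116, 870], [1, 0, 6, 1, 5, 0, 0, -11, 0, -1, 0, 0, 2]⟩, ⟨[877, 900, 927, 708], 1, 3, [792, 1077, 507, 357], []⟩, ⟨[877, 925, 927, 626], 1, 3, [109, 808, 993, 256], []⟩, ⟨[372, 382, 930, 955], 1, 3, [582, 260, 0, 787], []⟩]),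
  (7, []),
  (0, [⟨[2, 0, 0, 0, 0, 1165, 0, 0, 0, 0, 6, 0, 0, 0, 0], 1, 3, [0, 0, 0, 412, 0, 0, 0, 0, 214, 0, 0, 0, 0, 1070], []⟩])] (by decide +kernel)

theorem ra {F : Type*} [Field F] [NumberField F] {α : NumberField.RingOfIntegers F} (h : Gen α fl) :
    Range F 30 1373170 0 1172 :=
  have hs : splitOK fl m 2 ρ = true := by decide +kernel
  ((((a0.range h hs).trans (a1.range h hs)).trans (a2.range h hs)).trans (a3.range h hs)).trans (a4.range h hs)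

end Pool.Agent.Lib.MP_ab8df0_nt.A.N2
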