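import Pool.Agent.Lib.MP_ab8df0_nt.A.N2.A
import Pool.Agent.Lib.MP_ab8df0_nt.A.N2.B0
import Pool.Agent.Lib.MP_ab8df0_nt.A.N2.B1
import Pool.Agent.Lib.MP_ab8df0_nt.A.N2.B2
import Pool.Agent.Lib.MP_ab8df0_nt.A.N2.B3

/-! Square classes unramified outside 30. -/

namespace Pool.Agent.Lib.MP_ab8df0_nt.A.N2

open Pool.Agent.Lib.MP_ab8df0_nt.A

open NumberField IsDedekindDomain

variable {F : Type*} [Field F] [NumberField F] {α : 𝓞 F}

/-- The generators. -/
def g : Fin 13 → List ℤ := ![[-1],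
  [0, 1],
  [2],
  [-1, 1],
  [1, 1],
  [1, 0, 0, 1],
  [1, 0, 0, 0, 0, 1],
  [0, 3],
  [-1, -1, 0, 1],
  [-1, 0, 0, -1, 1],
  [-1, 0, 0, 1, 0, 1],
  [0, -1, 0, 0, 0, 0, 1, 0, 1],
  [4, 2, 1, 0, 0, -6, -5, -5, 0, 0, 1, 1, 1]]

instance : Fact (Irreducible (mq fl)) := ⟨irr_of_eis Nat.prime_two (by decide +kernel)⟩

theorem c2 (h : Gen α fl) : Cnt F 2 1 :=
  h.cnt (m := m) (r := 2) (ρ := ρ) Nat.prime_two (l := [(⟨[0], 15, 1, [1], [0, 1]⟩, 1)]) (by decide +kernel)

theorem c3 (h : Gen α fl) : Cnt F 3 2 :=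
  h.cnt (m := m) (r := 2) (ρ := ρ) Nat.prime_three (l := [(⟨[2], 3, 1, [1], [1, 1]⟩, 1), (⟨[2, 1, 2, 1], 3, 4, [0, 2, 2], [1, -1, 1, -1, 1]⟩, 1)]) (by decide +kernel)

theorem c5 (h : Gen α fl) : Cnt F 5 2 :=
  h.cnt (m := m) (r := 2) (ρ := ρ) Nat.prime_five (l := [(⟨[4], 5, 1, [1], [1, 1]⟩, 1), (⟨[2, 2], 5, 2, [1, 4], [-2, -2, 1]⟩, 1)]) (by decide +kernel)

theorem rb (h : Gen α fl) : Range F 30 1373170 1172 (1373170 + 1) :=
  cfg.range h (r := 2) (ρ := ρ) 1171 (by decide +kernel)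
    (tw_ok h (l := [2, 0, 0, 0, 0, -5, 0, 0, 0, 0, 1]) (d := 1) (by decide +kernel)) (by decide +kernel) (by decide) (by decide) (by decide)
    (((((((((((((((((((((((((((((((((((((((((((((((((((((((b0).trans b1).trans b2).trans b3).trans b4).trans b5).trans b6).trans b7).trans b8).trans b9).trans b10).trans b11).trans b12).trans b13).trans b14).trans b15).trans b16).trans b17).trans b18).trans b19).trans b20).trans b21).trans b22).trans b23).trans b24).trans b25).trans b26).trans b27).trans b28).trans b29).trans b30).trans b31).trans b32).trans b33).trans b34).trans b35).trans b36).trans b37).trans b38).trans b39).trans b40).trans b41).trans b42).trans b43).trans b44).trans b45).trans b46).trans b47).trans b48).trans b49).trans b50).trans b51).trans b52).trans b53).trans b54)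

theorem SU (h : Gen α fl) {ξ : F} (h0 : ξ ≠ 0)
    (hξ : ∀ v : HeightOneSpectrum (𝓞 F), ((30 : ℕ) : 𝓞 F) ∉ v.asIdeal →
      ∃ k : ℤ, v.valuation F ξ = WithZero.exp (2 * k)) :
    ∃ (e : Fin 13 → Bool) (u : F), ξ = (∏ i, if e i then ev (α : F) (g i) else 1) * u ^ 2 :=
  h.SU (m := m) (r := 2) (ρ := ρ) (D := 7174453500000000000000) (dF := 7174453500000000000000)
    (bs := [([1], 1, [-1, 15, -105, 455, -1365, 3003, -5005, 6435, -6435, 5005, -3003, 1365, -455, 105, -15]), ([0, 1], 1, [-2, 0, 0, 0, 0, 6, 0, 0, 0, 0, -6, 0, 0, 0, 0]), ([0, 0, 1], 1, [-4, 0, 0, 0, 0, 12, 0, 0, 0, 0, -24, 0, 0, 0, 0]), ([0, 0, 0, 1], 1, [-8, 0, 0, 0, 0, 12, 0, 0, 0, 0, -114, 0, 0, 0, 0]), ([0, 0, 0, 0, 1], 1, [-16, 0, 0, 0, 0, -48, 0, 0, 0, 0, -552, 0, 0, 0, 0]), ([0, 0, 0, 0, 0, 1], 1, [-32, 480, -3360, 14480, -42720, 90816, -142640, 167040, -145440, 92920, -42576, 13560, -2890, 390, -30]), ([0, 0, 0, 0, 0, 0, 1], 1, [-64, 0, 0, 0, 0, -1680, 0, 0, 0, 0, -12972,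 0, 0, 0, 0]), ([0, 0, 0, 0, 0, 0, 0, 1], 1, [-128, 0, 0, 0, 0, -5664, 0, 0, 0, 0, -62880, 0, 0, 0, 0]), ([0, 0, 0, 0, 0, 0, 0, 0, 1], 1, [-256, 0, 0, 0, 0, -15360, 0, 0, 0, 0, -304800, 0, 0, 0, 0]), ([0, 0, 0, 0, 0, 0, 0, 0, 0, 1], 1, [-512, 0, 0, 0, 0, -30912, 0, 0, 0, 0, -1477464, 0, 0, 0, 0]), ([0, 0, 0, 0, 0, 0, 0, 0, 0, 0, 1], 1, [-1024, 15360, -122880, 646400, -2457600, 6984192, -15068800, 24439680, -29059200, 23587360, -11454144, 1869600, -144020, 5820, -120]), ([0, 0, 0, 0, 0, 0, 0, 0, 0, 0, 0, 1], 1, [-2048, 0, 0, 0, 0, 166656, 0, 0, 0, 0, -34715280, 0, 0, 0, 0]), ([0, 0, 0, 0, 0, 0, 0, 0, 0, 0, 0, 0, 1], 1, [-4096, 0, 0, 0, 0, 1161984, 0, 0, 0, 0, -168276144, 0, 0, 0, 0]), ([0, 0, 0, 0, 0, 0, 0, 0, 0, 0, 0, 0, 0, 1], 1, [-8192, 0, 0, 0, 0, 4876800, 0, 0, 0, 0, -815688672, 0, 0, 0, 0]), ([0, 0, 0, 0, 0, 0, 0, 0, 0, 0, 0, 0, 0, 0, 1], 1, [-16384, 0, 0, 0, 0, 15983616, 0, 0, 0, 0, -3953905728, 0, 0, 0, 0])])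
    (K := 10000000000000000000000000000000000000000) (E := 835933764464395851186374729903796178632) (zs := [⟨9114522186797732388541214101538961855282, 835933764464395851186374729903796178633⟩, ⟨9114522186797732388541214101538961855282, -835933764464395851186374729903796178633⟩, ⟨4237236844044238144184240247875112663488, 13040874078027378410478220919599294501578⟩, ⟨4237236844044238144184240247875112663488, -13040874078027378410478220919599294501578⟩, ⟨2021521997443006603677881525493100767076, 8926743458062059181379999587516675243941⟩, ⟨2021521997443006603677881525493100767076, -8926743458062059181379999587516675243941⟩, ⟨3611562505213010125495034905244972860185, 8410107979279413506048512911083450436474⟩, ⟨3611562505213010125495034905244972860185, -8410107979279413506048512911083450436474⟩, ⟨-11093230076091152917011822043683890398868, 8059703423228368139410428080033557392247⟩, ⟨-11093230076091152917011822043683890398868, -8059703423228368139410428080033557392247⟩,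 ⟨-7865152883372376283145080903161549599636, 4681097101468728266618658188274534998619⟩, ⟨-7865152883372376283145080903161549599636, -4681097101468728266618658188274534998619⟩, ⟨-6882453806081372834569049629115485882907, 6033666344715769793136519594611555984718⟩, ⟨-6882453806081372834569049629115485882907, -6033666344715769793136519594611555984718⟩]) (T := 408)
    (c := ![(51263, 34744), (42473, 35096), (58309, 27991), (42193, 8971), (28537, 8639), (98689, 98686), (35449, 620), (166601, 17963), (163249, 59179), (4513, 838), (23833, 13645), (112657, 80064), (16369, 8780)]) (by decide +kernel)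
    (((c2 h).mul (c3 h)).mul (c5 h)) ((ra h).trans (rb h)) h0 hξ

end Pool.Agent.Lib.MP_ab8df0_nt.A.N2
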